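import Mathlib

/-!
# Significant tests and a Chernoff bound by counting
-/

namespace Pool.Agent.H64.NE

set_option maxHeartbeats 1000000

/-- The number of positions `z` at which the pair `(z, w z)` belongs to the test. -/
def hitN (M : ℕ) (w : ℕ → ℕ) (U : ℕ → Bool) : ℕ :=
  ((Finset.range M).filter fun z => U (z + M * w z) = true).card

/-- The number of pairs in the test. -/
def volN (M q : ℕ) (U : ℕ → Bool) : ℕ :=
  ((Finset.range (q * M)).filter fun i => U i = true).card

/-- Distance of two numbers. -/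
def dif (a b : ℕ) : ℕ := (a - b) + (b - a)

/-- The word `w` has significantly more or fewer hits than a random word. -/
def Sig (M q S : ℕ) (w : ℕ → ℕ) (U : ℕ → Bool) : Prop :=
  S * q * (volN M q U + dif (q * hitN M w U) (volN M q U)) <
    dif (q * hitN M w U) (volN M q U) ^ 2

lemma dif_cast (a b : ℕ) : ((dif a b : ℕ) : ℝ) = |(a : ℝ) - b| := by
  unfold dif
  rcases le_total a b with h | h
  · rw [Nat.sub_eq_zero_of_le h, zero_add, Nat.cast_sub h, abs_sub_comm, abs_of_nonneg]
    have : (a : ℝ) ≤ b := by exact_mod_cast h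
    linarith
  · rw [Nat.sub_eq_zero_of_le h, add_zero, Nat.cast_sub h, abs_of_nonneg]
    have : (b : ℝ) ≤ a := by exact_mod_cast h
    linarith

lemma hitN_congr {M : ℕ} {w w' : ℕ → ℕ} {U U' : ℕ → Bool} {q : ℕ} (hw : ∀ z < M, w z = w' z)
    (hlt : ∀ z < M, w z < q) (hU : ∀ i < q * M, U i = U' i) : hitN M w U = hitN M w' U' := by
  unfold hitN
  congr 1
  refine Finset.filter_congr fun z hz => ?_
  rw [Finset.mem_range] at hz
  rw [← hw z hz, hU]
  have h1 := hlt z hz
  calc z + M * w z < M + M * w z := by omega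
    _ = (w z + 1) * M := by ring
    _ ≤ q * M := Nat.mul_le_mul_right _ h1

lemma volN_congr {M q : ℕ} {U U' : ℕ → Bool} (hU : ∀ i < q * M, U i = U' i) :
    volN M q U = volN M q U' := by
  unfold volN
  congr 1
  refine Finset.filter_congr fun z hz => ?_
  rw [Finset.mem_range] at hz
  rw [hU z hz]

lemma Sig_congr {M q S : ℕ} {w w' : ℕ → ℕ} {U U' : ℕ → Bool} (hw : ∀ z < M, w z = w' z)
    (hlt : ∀ z < M, w z < q) (hU : ∀ i < q * M, U i = U' i) (h : Sig M q S w U) :
    Sig M q S w' U' := by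
  unfold Sig at h ⊢
  rwa [← hitN_congr hw hlt hU, ← volN_congr hU]

/-- Extension of a finite word. -/
def extN {M q : ℕ} (g : Fin M → Fin q) (z : ℕ) : ℕ := if h : z < M then g ⟨z, h⟩ else 0

lemma extN_fin {M q : ℕ} (g : Fin M → Fin q) (z : Fin M) : extN g z = g z := by
  unfold extN
  rw [dif_pos z.2]

/-- Indicator of the test. -/
def ind (U : ℕ → Bool) (i : ℕ) : ℝ := if U i = true then 1 else 0

lemma hitN_cast {M q : ℕ} (g : Fin M → Fin q) (U : ℕ → Bool) :
    ((hitN M (extN g) U : ℕ) : ℝ) = ∑ z : Fin M, ind U (z + M * (g z : ℕ)) := by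
  unfold hitN ind
  rw [Finset.card_filter]
  push_cast
  rw [← Fin.sum_univ_eq_sum_range (fun z => if U (z + M * extN g z) = true then (1 : ℝ) else 0) M]
  refine Finset.sum_congr rfl fun z _ => ?_
  rw [extN_fin]

lemma sum_range_mul_real (M N : ℕ) (f : ℕ → ℝ) :
    ∑ i ∈ Finset.range (M * N), f i =
      ∑ a ∈ Finset.range M, ∑ b ∈ Finset.range N, f (a * N + b) := by
  induction M with
  | zero => simp
  | succ M ih =>
    rw [Finset.sum_range_succ, ← ih, Nat.succ_mul, Finset.sum_range_add]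

lemma volN_cast (M q : ℕ) (U : ℕ → Bool) :
    ((volN M q U : ℕ) : ℝ) = ∑ z : Fin M, ∑ v : Fin q, ind U (z + M * (v : ℕ)) := by
  unfold volN ind
  rw [Finset.card_filter]
  push_cast
  rw [sum_range_mul_real q M]
  rw [Finset.sum_comm, ← Fin.sum_univ_eq_sum_range (fun z => ∑ v ∈ Finset.range q,
    if U (v * M + z) = true then (1 : ℝ) else 0) M]
  refine Finset.sum_congr rfl fun z _ => ?_
  rw [← Fin.sum_univ_eq_sum_range (fun v => if U (v * M + z) = true then (1 : ℝ) else 0) q]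
  refine Finset.sum_congr rfl fun v _ => ?_
  rw [show (z : ℕ) + M * (v : ℕ) = v * M + z by ring]

/-- The exponential moment of the number of hits of a random word. -/
lemma moment {M q : ℕ} (hq : 0 < q) (U : ℕ → Bool) {θ : ℝ} (hθ : |θ| ≤ 1) :
    ∑ g : Fin M → Fin q, Real.exp (θ * hitN M (extN g) U) ≤
      (q : ℝ) ^ M * Real.exp ((volN M q U : ℝ) / q * (θ + θ ^ 2)) := by
  have hq' : (0 : ℝ) < q := by exact_mod_cast hq
  have e1 : ∀ g : Fin M → Fin q, Real.exp (θ * hitN M (extN g) U) =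
      ∏ z : Fin M, Real.exp (θ * ind U (z + M * (g z : ℕ))) := by
    intro g
    rw [hitN_cast, Finset.mul_sum, Real.exp_sum]
  have e2 : ∑ g : Fin M → Fin q, ∏ z : Fin M, Real.exp (θ * ind U (z + M * (g z : ℕ))) =
      ∏ z : Fin M, ∑ v : Fin q, Real.exp (θ * ind U (z + M * (v : ℕ))) := by
    have := Finset.prod_univ_sum (fun _ : Fin M => (Finset.univ : Finset (Fin q)))
      (fun (z : Fin M) (v : Fin q) => Real.exp (θ * ind U (z + M * (v : ℕ))))
    rw [this, Fintype.piFinset_univ]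
  rw [Finset.sum_congr rfl fun g _ => e1 g, e2]
  have hexp : Real.exp θ - 1 ≤ θ + θ ^ 2 := by
    have := (abs_le.1 (Real.abs_exp_sub_one_sub_id_le hθ)).2
    linarith
  have e3 : ∀ z : Fin M, ∑ v : Fin q, Real.exp (θ * ind U (z + M * (v : ℕ))) ≤
      q * Real.exp ((∑ v : Fin q, ind U (z + M * (v : ℕ))) / q * (θ + θ ^ 2)) := by
    intro z
    have h1 : ∀ v : Fin q, Real.exp (θ * ind U (z + M * (v : ℕ))) ≤
        1 + ind U (z + M * (v : ℕ)) * (θ + θ ^ 2) := by
      intro v
      unfold ind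
      split_ifs
      · rw [mul_one, one_mul]
        linarith
      · simp
    calc ∑ v : Fin q, Real.exp (θ * ind U (z + M * (v : ℕ))) ≤
        ∑ v : Fin q, (1 + ind U (z + M * (v : ℕ)) * (θ + θ ^ 2)) :=
          Finset.sum_le_sum fun v _ => h1 v
      _ = q * ((∑ v : Fin q, ind U (z + M * (v : ℕ))) / q * (θ + θ ^ 2) + 1) := by
          rw [Finset.sum_add_distrib, ← Finset.sum_mul]
          simp only [Finset.sum_const, Finset.card_univ, Fintype.card_fin, nsmul_eq_mul, mul_one]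
          field_simp
          ring
      _ ≤ _ := mul_le_mul_of_nonneg_left (Real.add_one_le_exp _) hq'.le
  calc ∏ z : Fin M, ∑ v : Fin q, Real.exp (θ * ind U (z + M * (v : ℕ))) ≤
      ∏ z : Fin M, q * Real.exp ((∑ v : Fin q, ind U (z + M * (v : ℕ))) / q * (θ + θ ^ 2)) :=
        Finset.prod_le_prod (fun z _ => Finset.sum_nonneg fun v _ => (Real.exp_pos _).le)
          fun z _ => e3 z
    _ = _ := by
        rw [Finset.prod_mul_distrib, ← Real.exp_sum, ← Finset.sum_mul, ← Finset.sum_div,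
          ← volN_cast]
        simp

/-- One tail. -/
lemma tail {M q : ℕ} (hq : 0 < q) (U : ℕ → Bool) (A : Finset (Fin M → Fin q)) (ε t S : ℝ)
    (hε : ε = 1 ∨ ε = -1) (ht : 0 ≤ t) (hpos : 0 < (volN M q U : ℝ) / q + t)
    (hS : S * ((volN M q U : ℝ) / q + t) ≤ t ^ 2)
    (hA : ∀ g ∈ A, t ≤ ε * ((hitN M (extN g) U : ℝ) - (volN M q U : ℝ) / q)) :
    (A.card : ℝ) * Real.exp (S / 4) ≤ (q : ℝ) ^ M := by
  have hq' : (0 : ℝ) < q := by exact_mod_cast hq
  obtain ⟨lam, hlam⟩ : ∃ lam : ℝ, lam = (volN M q U : ℝ) / q := ⟨_, rfl⟩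
  rw [← hlam] at hpos hS
  have hlam0 : 0 ≤ lam := by rw [hlam]; positivity
  obtain ⟨θ, hθ⟩ : ∃ θ : ℝ, θ = t / (2 * (lam + t)) := ⟨_, rfl⟩
  have hθ0 : 0 ≤ θ := by rw [hθ]; positivity
  have hθ1 : θ ≤ 1 / 2 := by
    rw [hθ, div_le_div_iff₀ (by positivity) (by norm_num)]
    linarith
  have hθt : θ * (2 * (lam + t)) = t := by
    rw [hθ]
    field_simp
  have hεε : ε * ε = 1 := by rcases hε with h | h <;> rw [h] <;> norm_num
  have habs : |ε * θ| ≤ 1 := by
    rcases hε with h | h <;> rw [h]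
    · rw [one_mul, abs_of_nonneg hθ0]
      linarith
    · rw [neg_one_mul, abs_neg, abs_of_nonneg hθ0]
      linarith
  have hm := moment (M := M) hq U habs
  rw [← hlam] at hm
  have h1 : (A.card : ℝ) * Real.exp (ε * θ * lam + θ * t) ≤
      ∑ g : Fin M → Fin q, Real.exp (ε * θ * hitN M (extN g) U) := by
    calc (A.card : ℝ) * Real.exp (ε * θ * lam + θ * t) =
        ∑ g ∈ A, Real.exp (ε * θ * lam + θ * t) := by rw [Finset.sum_const, nsmul_eq_mul]
      _ ≤ ∑ g ∈ A, Real.exp (ε * θ * hitN M (extN g) U) := by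
          refine Finset.sum_le_sum fun g hg => Real.exp_le_exp.2 ?_
          have h2 := mul_le_mul_of_nonneg_left (hA g hg) hθ0
          rw [← hlam] at h2
          nlinarith
      _ ≤ _ := Finset.sum_le_sum_of_subset_of_nonneg (Finset.subset_univ _)
          fun g _ _ => (Real.exp_pos _).le
  have h3 : lam * (ε * θ + (ε * θ) ^ 2) ≤ ε * θ * lam + θ * t - S / 4 := by
    have e1 : (ε * θ) ^ 2 = θ ^ 2 := by
      calc (ε * θ) ^ 2 = (ε * ε) * θ ^ 2 := by ring
        _ = _ := by rw [hεε, one_mul]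
    rw [e1]
    -- λ θ² ≤ θ t - S/4
    have h4 : lam * θ ≤ t / 2 := by nlinarith
    have h5 : S / 4 ≤ θ * t / 2 := by
      have h6 : S * (lam + t) ≤ (θ * t * 2) * (lam + t) := by
        calc S * (lam + t) ≤ t ^ 2 := hS
          _ = (θ * (2 * (lam + t))) * t := by rw [hθt]; ring
          _ = _ := by ring
      have h7 := le_of_mul_le_mul_right h6 hpos
      linarith
    nlinarith
  have h8 : (A.card : ℝ) * Real.exp (ε * θ * lam + θ * t) ≤
      (q : ℝ) ^ M * Real.exp (ε * θ * lam + θ * t - S / 4) := by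
    refine (h1.trans hm).trans ?_
    exact mul_le_mul_of_nonneg_left (Real.exp_le_exp.2 h3) (by positivity)
  have h9 : Real.exp (ε * θ * lam + θ * t - S / 4) * Real.exp (S / 4) =
      Real.exp (ε * θ * lam + θ * t) := by
    rw [← Real.exp_add]
    congr 1
    ring
  have h10 : ((A.card : ℝ) * Real.exp (S / 4)) * Real.exp (ε * θ * lam + θ * t) ≤
      (q : ℝ) ^ M * Real.exp (ε * θ * lam + θ * t) := by
    calc ((A.card : ℝ) * Real.exp (S / 4)) * Real.exp (ε * θ * lam + θ * t) =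
        ((A.card : ℝ) * Real.exp (ε * θ * lam + θ * t)) * Real.exp (S / 4) := by ring
      _ ≤ ((q : ℝ) ^ M * Real.exp (ε * θ * lam + θ * t - S / 4)) * Real.exp (S / 4) :=
        mul_le_mul_of_nonneg_right h8 (Real.exp_pos _).le
      _ = _ := by rw [mul_assoc, h9]
  exact le_of_mul_le_mul_right h10 (Real.exp_pos _)

lemma sig_real {M q S : ℕ} (hq : 0 < q) {w : ℕ → ℕ} {U : ℕ → Bool} (h : Sig M q S w U) :
    (S : ℝ) * ((volN M q U : ℝ) / q + |(hitN M w U : ℝ) - (volN M q U : ℝ) / q|) <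
      |(hitN M w U : ℝ) - (volN M q U : ℝ) / q| ^ 2 := by
  have hq' : (0 : ℝ) < q := by exact_mod_cast hq
  unfold Sig at h
  have h1 : ((S * q * (volN M q U + dif (q * hitN M w U) (volN M q U)) : ℕ) : ℝ) <
      ((dif (q * hitN M w U) (volN M q U) ^ 2 : ℕ) : ℝ) := by exact_mod_cast h
  push_cast at h1
  rw [dif_cast] at h1
  push_cast at h1
  have e1 : |(q : ℝ) * (hitN M w U : ℝ) - (volN M q U : ℝ)| =
      q * |(hitN M w U : ℝ) - (volN M q U : ℝ) / q| := by
    rw [← abs_of_pos hq', ← abs_mul, abs_of_pos hq']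
    congr 1
    field_simp
  rw [e1] at h1
  have e2 : (volN M q U : ℝ) = q * ((volN M q U : ℝ) / q) := by field_simp
  have e3 : (S : ℝ) * q * ((volN M q U : ℝ) + q * |(hitN M w U : ℝ) - (volN M q U : ℝ) / q|) =
      q ^ 2 * ((S : ℝ) * ((volN M q U : ℝ) / q + |(hitN M w U : ℝ) - (volN M q U : ℝ) / q|)) := by
    nth_rewrite 1 [e2]
    ring
  rw [e3, mul_pow] at h1
  exact lt_of_mul_lt_mul_left h1 (by positivity)

open Classical in
/-- Few words are significant for a given test. -/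
theorem card_sig {M q S k : ℕ} (hq : 0 < q) (hk : 4 * k ≤ S) (U : ℕ → Bool) :
    ((Finset.univ : Finset (Fin M → Fin q)).filter fun g => Sig M q S (extN g) U).card * 2 ^ k ≤
      2 * q ^ M := by
  have hq' : (0 : ℝ) < q := by exact_mod_cast hq
  obtain ⟨lam, hlam⟩ : ∃ lam : ℝ, lam = (volN M q U : ℝ) / q := ⟨_, rfl⟩
  have hlam0 : 0 ≤ lam := by rw [hlam]; positivity
  let h : (Fin M → Fin q) → ℕ := fun g => hitN M (extN g) U
  let A := (Finset.univ : Finset (Fin M → Fin q)).filter fun g => Sig M q S (extN g) U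
  let Ap := A.filter fun g => lam ≤ h g
  let Am := A.filter fun g => ¬ lam ≤ h g
  have hmem : ∀ g ∈ A, (S : ℝ) * (lam + |(h g : ℝ) - lam|) < |(h g : ℝ) - lam| ^ 2 := by
    intro g hg
    have := sig_real hq (Finset.mem_filter.1 hg).2
    rw [← hlam] at this
    exact this
  have key : ∀ t : ℝ, 0 ≤ t → (S : ℝ) * (lam + t) < t ^ 2 → 0 < lam + t := by
    intro t ht h1
    have h2 : 0 ≤ (S : ℝ) * (lam + t) := by positivity
    have h3 : t ≠ 0 := by
      rintro rfl
      simp only [ne_eq, OfNat.ofNat_ne_zero, not_false_eq_true, zero_pow] at h1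
      linarith
    have h4 : 0 < t := lt_of_le_of_ne ht (Ne.symm h3)
    linarith
  have hAp : (Ap.card : ℝ) * Real.exp ((S : ℝ) / 4) ≤ (q : ℝ) ^ M := by
    rcases Ap.eq_empty_or_nonempty with h0 | h0
    · rw [h0]
      simp
    · obtain ⟨g0, hg0, hmin⟩ := Finset.exists_min_image Ap h h0
      have h1 := Finset.mem_filter.1 hg0
      have h2 := hmem g0 h1.1
      have h3 : |(h g0 : ℝ) - lam| = h g0 - lam := abs_of_nonneg (by linarith [h1.2])
      rw [h3] at h2
      have h4 : 0 ≤ (h g0 : ℝ) - lam := by linarith [h1.2]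
      refine tail hq U Ap 1 ((h g0 : ℝ) - lam) S (Or.inl rfl) h4 ?_ ?_ ?_
      · rw [← hlam]
        exact key _ h4 h2
      · rw [← hlam]
        exact h2.le
      · intro g hg
        have h5 := hmin g hg
        have h6 : (h g0 : ℝ) ≤ h g := by exact_mod_cast h5
        rw [← hlam, one_mul]
        simp only [h] at h6 ⊢
        linarith
  have hAm : (Am.card : ℝ) * Real.exp ((S : ℝ) / 4) ≤ (q : ℝ) ^ M := by
    rcases Am.eq_empty_or_nonempty with h0 | h0
    · rw [h0]
      simp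
    · obtain ⟨g0, hg0, hmax⟩ := Finset.exists_max_image Am h h0
      have h1 := Finset.mem_filter.1 hg0
      have h2 := hmem g0 h1.1
      have h1' := h1.2
      push Not at h1'
      have h3 : |(h g0 : ℝ) - lam| = lam - h g0 := by
        rw [abs_sub_comm]
        exact abs_of_nonneg (by linarith)
      rw [h3] at h2
      have h4 : 0 ≤ lam - (h g0 : ℝ) := by linarith
      refine tail hq U Am (-1) (lam - (h g0 : ℝ)) S (Or.inr rfl) h4 ?_ ?_ ?_
      · rw [← hlam]
        exact key _ h4 h2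
      · rw [← hlam]
        exact h2.le
      · intro g hg
        have h5 := hmax g hg
        have h6 : (h g : ℝ) ≤ h g0 := by exact_mod_cast h5
        rw [← hlam]
        simp only [h] at h6 ⊢
        linarith
  have hcard : A.card = Ap.card + Am.card := (Finset.card_filter_add_card_filter_not _).symm
  have hA : (A.card : ℝ) * Real.exp ((S : ℝ) / 4) ≤ 2 * (q : ℝ) ^ M := by
    rw [hcard]
    push_cast
    nlinarith
  have h2k : (2 : ℝ) ^ k ≤ Real.exp ((S : ℝ) / 4) := by
    have h1 : (2 : ℝ) ≤ Real.exp 1 := by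
      have := Real.add_one_le_exp (1 : ℝ)
      linarith
    calc (2 : ℝ) ^ k ≤ Real.exp 1 ^ k := pow_le_pow_left₀ (by norm_num) h1 k
      _ = Real.exp (k : ℝ) := by rw [← Real.exp_nat_mul]; simp
      _ ≤ _ := by
          refine Real.exp_le_exp.2 ?_
          have h2 : ((4 * k : ℕ) : ℝ) ≤ S := by exact_mod_cast hk
          push_cast at h2
          linarith
  have hfin : (A.card : ℝ) * 2 ^ k ≤ 2 * (q : ℝ) ^ M :=
    (mul_le_mul_of_nonneg_left h2k (by positivity)).trans hA
  exact_mod_cast hfin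

end Pool.Agent.H64.NE
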