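import Pool.Agent.H64.NE.Ideal
import Pool.Agent.H48.NE.HardE

/-!
# A word whose significant tests generate good strings
-/

namespace Pool.Agent.H64.NE

open Pool.Agent.H48.NE

set_option maxHeartbeats 1000000

/-- The word whose symbols are given by blocks of bits of a list. -/
def wd (J μ : ℕ) (L : List Bool) (z : ℕ) : ℕ :=
  val ((List.range μ).map fun j => L.getD (z * J + j) false)

lemma wd_lt (J μ : ℕ) (L : List Bool) (z : ℕ) : wd J μ L z < 2 ^ μ := by
  have := val_lt ((List.range μ).map fun j => L.getD (z * J + j) false)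
  rwa [List.length_map, List.length_range] at this

lemma val_map_bits {μ v : ℕ} (hv : v < 2 ^ μ) :
    val ((List.range μ).map fun j => decide (v / 2 ^ j % 2 = 1)) = v := by
  have e : ((List.range μ).map fun j => decide (v / 2 ^ j % 2 = 1)) = bitsOf μ v := by
    refine List.ext_getElem (by simp) fun j hj hj' => ?_
    rw [List.getElem_map, List.getElem_range]
    have h1 := bit_val (bitsOf μ v) j
    rw [val_bitsOf hv] at h1
    rw [h1]
    simp only [length_bitsOf] at hj'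
    simp [List.getD, hj']
  rw [e, val_bitsOf hv]

/-- The list of bits of a word. -/
def lst (M J : ℕ) (w : ℕ → ℕ) : List Bool :=
  (List.range (M * J)).map fun i => decide (w (i / J) / 2 ^ (i % J) % 2 = 1)

lemma length_lst (M J : ℕ) (w : ℕ → ℕ) : (lst M J w).length = M * J := by simp [lst]

lemma wd_lst {M J μ : ℕ} (hμ : μ ≤ J) {w : ℕ → ℕ} {z : ℕ} (hz : z < M) (hw : w z < 2 ^ μ) :
    wd J μ (lst M J w) z = w z := by
  unfold wd
  rw [← val_map_bits hw]
  congr 1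
  refine List.map_congr_left fun j hj => ?_
  rw [List.mem_range] at hj
  have hjJ : j < J := by omega
  have h1 : z * J + j < M * J := by
    calc z * J + j < z * J + J := by omega
      _ = (z + 1) * J := by ring
      _ ≤ _ := Nat.mul_le_mul_right _ hz
  have h2 : (z * J + j) / J = z := by
    rw [Nat.add_comm, Nat.add_mul_div_right _ _ (by omega), Nat.div_eq_of_lt hjJ, zero_add]
  have h3 : (z * J + j) % J = j := by
    rw [Nat.add_comm, Nat.add_mul_mod_self_right, Nat.mod_eq_of_lt hjJ]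
  unfold lst
  simp [List.getD, h1, h2, h3]

open Classical in
/-- There is a word all of whose significant tests generate a good string for some seed. -/
theorem exists_hardX {a K μ d as ps c l ρ S k J : ℕ} (D : List ℕ) (X : (ℕ → Bool) → Prop)
    (hcongr : ∀ g g' : ℕ → Bool, (∀ i < K, g i = g' i) → X g → X g')
    (hX : ((Finset.univ : Finset (Fin K → Bool)).filter fun g => X (ext g)).card * 2 ≤ 2 ^ K)
    (ha1 : 1 ≤ a) (hK : K = 2 ^ a * 2 ^ a)
    (hps : ps.Prime) (hps1 : 2 ^ as ≤ 2 * ps) (hps2 : ps ≤ 2 ^ as) (hl : l = as + as)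
    (has : d + μ + 4 * a + 2 ≤ as)
    (hD : ∀ i < K, ∀ k < K, i ≠ k → agD c l (D.getD i 0) (D.getD k 0) ≤ ρ)
    (hρ : ρ ≤ a) (hk : 2 ^ (3 * a + 2) + 1 ≤ k) (hS : 4 * k ≤ S) (hμ : μ ≤ J) :
    ∃ L : List Bool, L.length = 2 ^ d * J ∧ ∀ U : List Bool, U.length = 2 ^ (d + μ) →
      Sig (2 ^ d) (2 ^ μ) S (wd J μ L) (fun i => U.getD i false) →
      ∃ s < 2 ^ (l * 2 ^ c), ¬ X (gM as ps c l D U s) := by
  have hcount := card_allbad (m := d + μ) D X hcongr hX ha1 hK hps hps1 hps2 hl has hD hρ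
  obtain ⟨𝓑, h𝓑⟩ : ∃ 𝓑 : Finset (List Bool), 𝓑 = (allL (2 ^ (d + μ))).filter fun B =>
    ∀ s < 2 ^ (l * 2 ^ c), X (gM as ps c l D B s) := ⟨_, rfl⟩
  rw [← h𝓑] at hcount
  by_contra hno
  push Not at hno
  have hcover : (Finset.univ : Finset (Fin (2 ^ d) → Fin (2 ^ μ))) ⊆ 𝓑.biUnion fun B =>
      (Finset.univ : Finset (Fin (2 ^ d) → Fin (2 ^ μ))).filter fun g =>
        Sig (2 ^ d) (2 ^ μ) S (extN g) (fun i => B.getD i false) := by
    intro g _
    obtain ⟨U, hU, hsig, hall⟩ := hno (lst (2 ^ d) J (extN g)) (length_lst _ _ _)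
    rw [Finset.mem_biUnion]
    refine ⟨U, ?_, ?_⟩
    · rw [h𝓑, Finset.mem_filter]
      exact ⟨mem_allL.2 hU, hall⟩
    · rw [Finset.mem_filter]
      refine ⟨Finset.mem_univ _, ?_⟩
      refine Sig_congr (fun z hz => ?_) (fun z _ => wd_lt _ _ _ _) (fun _ _ => rfl) hsig
      refine wd_lst hμ hz ?_
      unfold extN
      rw [dif_pos hz]
      exact (g ⟨z, hz⟩).2
  have h1 := (Finset.card_le_card hcover).trans Finset.card_biUnion_le
  have h2 : (2 ^ μ) ^ (2 ^ d) * 2 ^ k ≤ 𝓑.card * (2 * (2 ^ μ) ^ (2 ^ d)) := by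
    calc (2 ^ μ) ^ (2 ^ d) * 2 ^ k =
        (Finset.univ : Finset (Fin (2 ^ d) → Fin (2 ^ μ))).card * 2 ^ k := by simp
      _ ≤ (∑ B ∈ 𝓑, ((Finset.univ : Finset (Fin (2 ^ d) → Fin (2 ^ μ))).filter fun g =>
        Sig (2 ^ d) (2 ^ μ) S (extN g) (fun i => B.getD i false)).card) * 2 ^ k :=
          Nat.mul_le_mul_right _ h1
      _ = ∑ B ∈ 𝓑, ((Finset.univ : Finset (Fin (2 ^ d) → Fin (2 ^ μ))).filter fun g =>
        Sig (2 ^ d) (2 ^ μ) S (extN g) (fun i => B.getD i false)).card * 2 ^ k :=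
          Finset.sum_mul _ _ _
      _ ≤ ∑ B ∈ 𝓑, 2 * (2 ^ μ) ^ (2 ^ d) := by
          refine Finset.sum_le_sum fun B _ => ?_
          exact card_sig (by positivity) hS (fun i => B.getD i false)
      _ = _ := by rw [Finset.sum_const, smul_eq_mul]
  have h3 : 𝓑.card * (2 * (2 ^ μ) ^ (2 ^ d)) < 2 ^ k * (2 ^ μ) ^ (2 ^ d) := by
    calc 𝓑.card * (2 * (2 ^ μ) ^ (2 ^ d)) < 2 ^ 2 ^ (3 * a + 2) * (2 * (2 ^ μ) ^ (2 ^ d)) :=
          Nat.mul_lt_mul_of_pos_right hcount (by positivity)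
      _ = 2 ^ (2 ^ (3 * a + 2) + 1) * (2 ^ μ) ^ (2 ^ d) := by
          rw [pow_succ 2 (2 ^ (3 * a + 2))]
          ring
      _ ≤ _ := Nat.mul_le_mul_right _ (Nat.pow_le_pow_right (by norm_num) hk)
  have h4 : (2 ^ μ) ^ (2 ^ d) * 2 ^ k = 2 ^ k * (2 ^ μ) ^ (2 ^ d) := Nat.mul_comm _ _
  omega

end Pool.Agent.H64.NE
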