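import Pool.Agent.H64.NE.Unif

/-!
# Random strings are good for all tests
-/

namespace Pool.Agent.H64.NE

open Pool.Agent.H48.NE

set_option maxHeartbeats 1000000

lemma val_inj' {L L' : List Bool} (h : L.length = L'.length) (hv : val L = val L') : L = L' := by
  rw [← bitsOf_val L, ← bitsOf_val L', h, hv]

/-- Extension of a finite array of bits. -/
def extB {M μ : ℕ} (y : Fin M × Fin μ → Bool) (z j : ℕ) : Bool :=
  if h : z < M ∧ j < μ then y (⟨z, h.1⟩, ⟨j, h.2⟩) else false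

/-- The word with given bits. -/
def wrd {M μ : ℕ} (y : Fin M × Fin μ → Bool) (z : ℕ) : ℕ :=
  val ((List.range μ).map fun j => extB y z j)

lemma wrd_lt {M μ : ℕ} (y : Fin M × Fin μ → Bool) (z : ℕ) : wrd y z < 2 ^ μ := by
  have := val_lt ((List.range μ).map fun j => extB y z j)
  rwa [List.length_map, List.length_range] at this

lemma ecw_lt (μ J P p : ℕ) (r : ℕ → Bool) (T : List Bool) (z : ℕ) :
    ecw μ J P p r T z < 2 ^ μ := by
  have := val_lt ((List.range μ).map fun j => ebit J P p r T z j)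
  rwa [List.length_map, List.length_range] at this

open Classical in
lemma card_sigB {M μ S k : ℕ} (hk : 4 * k ≤ S) (U : ℕ → Bool) :
    ((Finset.univ : Finset (Fin M × Fin μ → Bool)).filter fun y =>
      Sig M (2 ^ μ) S (wrd y) U).card * 2 ^ k ≤ 2 * (2 ^ μ) ^ M := by
  refine le_trans (Nat.mul_le_mul_right _ ?_) (card_sig (M := M) (q := 2 ^ μ) (by positivity) hk U)
  refine Finset.card_le_card_of_injOn (fun y (z : Fin M) => (⟨wrd y z, wrd_lt y z⟩ : Fin (2 ^ μ)))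
    ?_ ?_
  · intro y hy
    rw [Finset.mem_coe, Finset.mem_filter] at hy ⊢
    refine ⟨Finset.mem_univ _, Sig_congr (fun z hz => ?_) (fun z _ => wrd_lt y z)
      (fun _ _ => rfl) hy.2⟩
    unfold extN
    rw [dif_pos hz]
  · intro y _ y' _ h
    funext a
    have h1 := congrFun h a.1
    simp only [Fin.mk.injEq] at h1
    have h2 := val_inj' (by simp) h1
    have h3 : extB y a.1 a.2 = extB y' a.1 a.2 := by
      have h4 := congrArg (fun L => L.getD a.2 false) h2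
      simpa [List.getD] using h4
    unfold extB at h3
    rw [dif_pos ⟨a.1.2, a.2.2⟩, dif_pos ⟨a.1.2, a.2.2⟩] at h3
    exact h3

/-- A string is bad if some test is significant for `ℓ` codewords. -/
def BadX (n M μ J P p ℓ S : ℕ) (r : ℕ → Bool) : Prop :=
  ∃ U : ℕ → Bool, ∃ Λ : Finset (List Bool), Λ.card = ℓ ∧
    ∀ T ∈ Λ, T.length = 2 ^ n ∧ Sig M (2 ^ μ) S (ecw μ J P p r T) U

open Classical in
/-- For a given test and given messages few strings are bad. -/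
lemma card_one {n M μ J P p ℓ S K k : ℕ} (hp : p.Prime) (hpP : p ≤ P) (hμ : μ ≤ J)
    (hℓ2 : ℓ * ℓ * 2 ^ n ≤ p) (hk : 4 * k ≤ S) (hK : M * J * P * P ≤ K) (U : ℕ → Bool)
    (Λ : Finset (List Bool)) (hΛ : Λ.card = ℓ) (hlen : ∀ T ∈ Λ, T.length = 2 ^ n) :
    ((Finset.univ : Finset (Fin K → Bool)).filter fun g => ∀ T ∈ Λ,
      Sig M (2 ^ μ) S (ecw μ J P p (ext g) T) U).card * 2 ^ (k * ℓ) ≤ 2 ^ ℓ * 2 ^ K := by
  obtain ⟨x, hx, hsep⟩ := exists_sep hp Λ hΛ hlen hℓ2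
  let e : Fin ℓ ≃ Λ := (Λ.equivFinOfCardEq hΛ).symm
  let T : Fin ℓ → List Bool := fun i => (e i : List Bool)
  have hTmem : ∀ i, T i ∈ Λ := fun i => (e i).2
  have hT : ∀ i i', hv (T i) x p = hv (T i') x p → i = i' := by
    intro i i' h
    have h1 := hsep _ (hTmem i) _ (hTmem i') h
    exact e.injective (Subtype.ext h1)
  have hv' : ∀ (T : List Bool) (x : ℕ), hv T x p < P := fun T x =>
    lt_of_lt_of_le (hv_lt _ _ hp.pos) hpP
  let ι : Fin ℓ → Fin M × Fin μ → Fin K := fun i a =>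
    ⟨idx J P a.1 a.2 x (hv (T i) x p), lt_of_lt_of_le
      (idx_lt a.1.2 (lt_of_lt_of_le a.2.2 hμ) (lt_of_lt_of_le hx hpP) (hv' _ _)) hK⟩
  have hι : ∀ i a, ((ι i a : Fin K) : ℕ) = idx J P a.1 a.2 x (hv (T i) x p) := fun i a => rfl
  have hinj : ∀ i a i' a', ι i a = ι i' a' → i = i' ∧ a = a' := by
    intro i a i' a' h
    have h1 := congrArg Fin.val h
    rw [hι, hι] at h1
    obtain ⟨h2, h3, -, h4⟩ := idx_inj (lt_of_lt_of_le a.2.2 hμ) (lt_of_lt_of_le hx hpP) (hv' _ _)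
      (lt_of_lt_of_le a'.2.2 hμ) (lt_of_lt_of_le hx hpP) (hv' _ _) h1
    exact ⟨hT _ _ h4, Prod.ext (Fin.ext h2) (Fin.ext h3)⟩
  let B : Finset (Fin M × Fin μ → Bool) := (Finset.univ : Finset (Fin M × Fin μ → Bool)).filter
    fun y => Sig M (2 ^ μ) S (wrd y) U
  have hB : B.card * 2 ^ k ≤ 2 * (2 ^ μ) ^ M := card_sigB hk U
  obtain ⟨𝓕, h𝓕d⟩ : ∃ 𝓕, 𝓕 = (Finset.univ : Finset (Fin K → Bool)).filter fun r =>
        (fun (i : Fin ℓ) (a : Fin M × Fin μ) => ebit J P p (ext r) (T i) a.1 a.2) ∈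
          Fintype.piFinset fun _ : Fin ℓ => B := ⟨_, rfl⟩
  have huni := uniform (I := Fin K) (L := Fin ℓ) (A := Fin M × Fin μ)
    (fun r i a => ebit J P p (ext r) (T i) a.1 a.2) (flp ι) (flp_flp hinj)
    (ebit_flp hpP hμ hK hx T hT ι hι) (Fintype.piFinset fun _ => B) 𝓕 (fun r => by
      rw [h𝓕d, Finset.mem_filter]
      exact ⟨fun h => h.2, fun h => ⟨Finset.mem_univ _, h⟩⟩)
  have hsub : ((Finset.univ : Finset (Fin K → Bool)).filter fun g => ∀ T ∈ Λ,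
      Sig M (2 ^ μ) S (ecw μ J P p (ext g) T) U) ⊆
      (Finset.univ : Finset (Fin K → Bool)).filter fun r =>
        (fun (i : Fin ℓ) (a : Fin M × Fin μ) => ebit J P p (ext r) (T i) a.1 a.2) ∈
          Fintype.piFinset fun _ : Fin ℓ => B := by
    intro g hg
    rw [Finset.mem_filter] at hg ⊢
    refine ⟨Finset.mem_univ _, ?_⟩
    rw [Fintype.mem_piFinset]
    intro i
    rw [Finset.mem_filter]
    refine ⟨Finset.mem_univ _, ?_⟩
    refine Sig_congr (fun z hz => ?_) (fun z _ => ecw_lt _ _ _ _ _ _ _) (fun _ _ => rfl)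
      (hg.2 _ (hTmem i))
    unfold ecw wrd
    congr 1
    refine List.map_congr_left fun j hj => ?_
    rw [List.mem_range] at hj
    unfold extB
    rw [dif_pos ⟨hz, hj⟩]
  rw [← h𝓕d] at hsub
  have hle := Finset.card_le_card hsub
  obtain ⟨c1, hc1⟩ : ∃ c1, c1 = 𝓕.card := ⟨_, rfl⟩
  rw [← hc1] at hle huni
  have e1 : 2 ^ (Fintype.card (Fin M × Fin μ) * Fintype.card (Fin ℓ)) = ((2 ^ μ) ^ M) ^ ℓ := by
    rw [Fintype.card_prod, Fintype.card_fin, Fintype.card_fin, Fintype.card_fin, ← pow_mul 2 μ M,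
      Nat.mul_comm M μ, ← pow_mul]
  have e2 : 2 ^ Fintype.card (Fin K) = 2 ^ K := by rw [Fintype.card_fin]
  have e3 : (Fintype.piFinset fun _ : Fin ℓ => B).card = B.card ^ ℓ := by
    rw [Fintype.card_piFinset]
    simp
  rw [e1, e2, e3] at huni
  have h1 : c1 * 2 ^ (k * ℓ) * ((2 ^ μ) ^ M) ^ ℓ ≤ 2 ^ ℓ * 2 ^ K * ((2 ^ μ) ^ M) ^ ℓ := by
    calc c1 * 2 ^ (k * ℓ) * ((2 ^ μ) ^ M) ^ ℓ = (c1 * ((2 ^ μ) ^ M) ^ ℓ) * (2 ^ k) ^ ℓ := by
          rw [pow_mul]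
          ring
      _ = (B.card * 2 ^ k) ^ ℓ * 2 ^ K := by
          rw [huni, mul_pow]
          ring
      _ ≤ (2 * (2 ^ μ) ^ M) ^ ℓ * 2 ^ K := Nat.mul_le_mul_right _ (Nat.pow_le_pow_left hB _)
      _ = _ := by
          rw [mul_pow]
          ring
  exact (Nat.mul_le_mul_right _ hle).trans (Nat.le_of_mul_le_mul_right h1 (by positivity))

open Classical in
/-- At most half of all strings are bad. -/
theorem card_badX {n M μ J P p ℓ S K : ℕ} (hp : p.Prime) (hpP : p ≤ P) (hμ : μ ≤ J)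
    (hM : 1 ≤ M) (hℓ1 : 2 ^ μ * M ≤ ℓ) (hℓ2 : ℓ * ℓ * 2 ^ n ≤ p) (hS : 4 * (2 ^ n + 3) ≤ S)
    (hK : M * J * P * P ≤ K) :
    ((Finset.univ : Finset (Fin K → Bool)).filter fun g =>
      BadX n M μ J P p ℓ S (ext g)).card * 2 ≤ 2 ^ K := by
  obtain ⟨k, hk⟩ : ∃ k, k = 2 ^ n + 3 := ⟨_, rfl⟩
  rw [← hk] at hS
  let I : Finset ((Fin (2 ^ μ * M) → Bool) × Finset (List Bool)) :=
    Finset.univ ×ˢ (Finset.powersetCard ℓ (allL (2 ^ n)))
  have hI : I.card ≤ 2 ^ (2 ^ μ * M) * 2 ^ (2 ^ n * ℓ) := by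
    simp only [I]
    rw [Finset.card_product, Finset.card_powersetCard]
    refine Nat.mul_le_mul (by simp) ?_
    calc (allL (2 ^ n)).card.choose ℓ ≤ (allL (2 ^ n)).card ^ ℓ := Nat.choose_le_pow _ _
      _ ≤ (2 ^ (2 ^ n)) ^ ℓ := Nat.pow_le_pow_left (card_allL_le _) _
      _ = _ := by rw [← pow_mul]
  have hsub : ((Finset.univ : Finset (Fin K → Bool)).filter fun g =>
      BadX n M μ J P p ℓ S (ext g)) ⊆
      I.biUnion fun q => (Finset.univ : Finset (Fin K → Bool)).filter fun g => ∀ T ∈ q.2,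
        Sig M (2 ^ μ) S (ecw μ J P p (ext g) T) (ext q.1) := by
    intro g hg
    rw [Finset.mem_filter] at hg
    obtain ⟨-, U, Λ, hΛ1, hΛ2⟩ := hg
    rw [Finset.mem_biUnion]
    refine ⟨(fun z => U z, Λ), ?_, ?_⟩
    · simp only [I]
      rw [Finset.mem_product, Finset.mem_powersetCard]
      exact ⟨Finset.mem_univ _, fun T hT => mem_allL.2 (hΛ2 T hT).1, hΛ1⟩
    · rw [Finset.mem_filter]
      refine ⟨Finset.mem_univ _, fun T hT => ?_⟩
      refine Sig_congr (fun _ _ => rfl) (fun z _ => ecw_lt _ _ _ _ _ _ _) (fun i hi => ?_)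
        (hΛ2 T hT).2
      rw [ext_of_lt _ hi]
  have h6 : ((Finset.univ : Finset (Fin K → Bool)).filter fun g =>
      BadX n M μ J P p ℓ S (ext g)).card * 2 ^ (k * ℓ) ≤
      2 ^ (2 ^ μ * M) * 2 ^ (2 ^ n * ℓ) * (2 ^ ℓ * 2 ^ K) := by
    calc _ ≤ (∑ q ∈ I, ((Finset.univ : Finset (Fin K → Bool)).filter fun g => ∀ T ∈ q.2,
        Sig M (2 ^ μ) S (ecw μ J P p (ext g) T) (ext q.1)).card) * 2 ^ (k * ℓ) :=
          Nat.mul_le_mul_right _ ((Finset.card_le_card hsub).trans Finset.card_biUnion_le)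
      _ = ∑ q ∈ I, ((Finset.univ : Finset (Fin K → Bool)).filter fun g => ∀ T ∈ q.2,
        Sig M (2 ^ μ) S (ecw μ J P p (ext g) T) (ext q.1)).card * 2 ^ (k * ℓ) :=
          Finset.sum_mul _ _ _
      _ ≤ ∑ q ∈ I, 2 ^ ℓ * 2 ^ K := by
          refine Finset.sum_le_sum fun q hq => ?_
          simp only [I] at hq
          rw [Finset.mem_product, Finset.mem_powersetCard] at hq
          exact card_one hp hpP hμ hℓ2 hS hK (ext q.1) q.2 hq.2.2
            (fun T hT => mem_allL.1 (hq.2.1 hT))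
      _ = I.card * (2 ^ ℓ * 2 ^ K) := by rw [Finset.sum_const, smul_eq_mul]
      _ ≤ _ := Nat.mul_le_mul_right _ hI
  have h9 : 2 ^ (2 ^ μ * M) * 2 ^ (2 ^ n * ℓ) * 2 ^ ℓ * 2 ≤ 2 ^ (k * ℓ) := by
    rw [← pow_add, ← pow_add, ← pow_succ]
    refine Nat.pow_le_pow_right (by norm_num) ?_
    have h1 : 1 ≤ 2 ^ μ * M := Nat.mul_pos (by positivity) hM
    rw [hk, Nat.add_mul]
    omega
  have h10 : (((Finset.univ : Finset (Fin K → Bool)).filter fun g =>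
      BadX n M μ J P p ℓ S (ext g)).card * 2) * 2 ^ (k * ℓ) ≤ 2 ^ K * 2 ^ (k * ℓ) := by
    calc _ = (((Finset.univ : Finset (Fin K → Bool)).filter fun g =>
      BadX n M μ J P p ℓ S (ext g)).card * 2 ^ (k * ℓ)) * 2 := by ring
      _ ≤ (2 ^ (2 ^ μ * M) * 2 ^ (2 ^ n * ℓ) * (2 ^ ℓ * 2 ^ K)) * 2 := Nat.mul_le_mul_right _ h6
      _ = 2 ^ K * (2 ^ (2 ^ μ * M) * 2 ^ (2 ^ n * ℓ) * 2 ^ ℓ * 2) := by ring
      _ ≤ _ := Nat.mul_le_mul_left _ h9
  exact Nat.le_of_mul_le_mul_right h10 (by positivity)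

lemma badX_congr {n M μ J P p ℓ S : ℕ} (hp : 0 < p) (hpP : p ≤ P) (hμ : μ ≤ J)
    {g g' : ℕ → Bool} (h : ∀ i < M * J * P * P, g i = g' i) (hb : BadX n M μ J P p ℓ S g) :
    BadX n M μ J P p ℓ S g' := by
  obtain ⟨U, Λ, h1, h2⟩ := hb
  refine ⟨U, Λ, h1, fun T hT => ⟨(h2 T hT).1, ?_⟩⟩
  refine Sig_congr (fun z hz => ?_) (fun z _ => ecw_lt _ _ _ _ _ _ _) (fun _ _ => rfl)
    (h2 T hT).2
  unfold ecw
  congr 1
  refine List.map_congr_left fun j hj => ?_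
  rw [List.mem_range] at hj
  unfold ebit
  congr 2
  congr 1
  refine Finset.sum_congr rfl fun x hx => ?_
  rw [Finset.mem_range] at hx
  rw [h _ (idx_lt hz (by omega) (by omega) (lt_of_lt_of_le (hv_lt _ _ hp) hpP))]

end Pool.Agent.H64.NE
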