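import Pool.Agent.H64.NE.HardT
import Pool.Agent.H48.NE.R11main

/-!
# Computability of the code, of significance and of goodness
-/

namespace Pool.Agent.H64.NE

open Pool.Agent.H48.NE
open TMLib Polynomial Filter

set_option maxHeartbeats 1000000

variable {α β γ δ : Type} [Enc α] [Enc β] [Enc γ] [Enc δ]

/-! ### The codeword as a list of bits -/

/-- The bits of the codeword. -/
def ecl (C t n : ℕ) (r T : List Bool) : List Bool :=
  (List.range (2 ^ (C * n) * 2 ^ n)).map fun i =>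
    ebit (2 ^ n) (2 ^ (t * n)) (prm (2 ^ (t * n - 1))) (fun i => r.getD i false) T
      (i / 2 ^ n) (i % 2 ^ n)

/-- The index of the random bit, with capped powers. -/
def idB (t : ℕ) (x : (ℕ × ℕ) × (List Bool × ℕ)) (y : ℕ) : ℕ :=
  idx (powB x.1.2 x.1.1) (powB x.1.2 (t * x.1.1)) (x.2.2 / powB x.1.2 x.1.1)
    (x.2.2 % powB x.1.2 x.1.1) y (hv x.2.1 y (prm (powB x.1.2 (t * x.1.1 - 1))))

lemma ptime_idB (t : ℕ) : PTime fun z : ((ℕ × ℕ) × (List Bool × ℕ)) × ℕ => idB t z.1 z.2 := by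
  unfold idB idx
  have h1 : PTime fun z : ((ℕ × ℕ) × (List Bool × ℕ)) × ℕ =>
      prm (powB z.1.1.2 (t * z.1.1.1 - 1)) := by fun_prop
  have h2 : PTime fun z : ((ℕ × ℕ) × (List Bool × ℕ)) × ℕ =>
      hv z.1.2.1 z.2 (prm (powB z.1.1.2 (t * z.1.1.1 - 1))) :=
    ptime_hv (by fun_prop) (by fun_prop) h1
  have h3 : PTime fun z : ((ℕ × ℕ) × (List Bool × ℕ)) × ℕ =>
      (z.1.2.2 / powB z.1.1.2 z.1.1.1) * powB z.1.1.2 z.1.1.1 +
        z.1.2.2 % powB z.1.1.2 z.1.1.1 := by fun_prop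
  have h4 : PTime fun z : ((ℕ × ℕ) × (List Bool × ℕ)) × ℕ =>
      ((z.1.2.2 / powB z.1.1.2 z.1.1.1) * powB z.1.1.2 z.1.1.1 +
        z.1.2.2 % powB z.1.1.2 z.1.1.1) * powB z.1.1.2 (t * z.1.1.1) + z.2 :=
    PTime.add (PTime.mul h3 (by fun_prop)) (by fun_prop)
  exact PTime.add (PTime.mul h4 (by fun_prop)) h2

/-- A bit of the codeword, computable form. -/
def ebT (t : ℕ) (x : ((ℕ × ℕ) × (List Bool × List Bool)) × ℕ) : Bool :=
  decide (((List.range (prm (powB x.1.1.2 (t * x.1.1.1 - 1)))).filter fun y =>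
    x.1.2.1.getD (idB t (x.1.1, (x.1.2.2, x.2)) y) false).length % 2 = 1)

lemma ptime_ebT (t : ℕ) : PTime (ebT t) := by
  unfold ebT
  have h1 : PTime fun z : (((ℕ × ℕ) × (List Bool × List Bool)) × ℕ) × ℕ =>
      idB t (z.1.1.1, (z.1.1.2.2, z.1.2)) z.2 :=
    (ptime_idB t).comp (f := fun z : (((ℕ × ℕ) × (List Bool × List Bool)) × ℕ) × ℕ =>
      ((z.1.1.1, (z.1.1.2.2, z.1.2)), z.2)) (by fun_prop)
  have h2 : PTime fun x : ((ℕ × ℕ) × (List Bool × List Bool)) × ℕ =>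
      ((List.range (prm (powB x.1.1.2 (t * x.1.1.1 - 1)))).filter fun y =>
        x.1.2.1.getD (idB t (x.1.1, (x.1.2.2, x.2)) y) false).length := by
    refine PTime.length (PTime.filter (g := fun (x : ((ℕ × ℕ) × (List Bool × List Bool)) × ℕ) y =>
      x.1.2.1.getD (idB t (x.1.1, (x.1.2.2, x.2)) y) false) (by fun_prop) ?_)
    exact PTime.listGetD (by fun_prop) h1 (by fun_prop)
  exact PTime.eq (PTime.mod h2 (by fun_prop)) (by fun_prop)

lemma ebT_eq {t n N : ℕ} (h1 : 2 ^ n ≤ N) (h2 : 2 ^ (t * n) ≤ N) (r T : List Bool) (i : ℕ) :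
    ebT t (((n, N), (r, T)), i) = ebit (2 ^ n) (2 ^ (t * n)) (prm (2 ^ (t * n - 1)))
      (fun i => r.getD i false) T (i / 2 ^ n) (i % 2 ^ n) := by
  have h3 : 2 ^ (t * n - 1) ≤ N := le_trans (Nat.pow_le_pow_right (by norm_num) (by omega)) h2
  unfold ebT ebit idB
  simp only
  rw [powB_eq h1, powB_eq h2, powB_eq h3, length_filter_range, Finset.card_filter]
  congr 2
  congr 1
  refine Finset.sum_congr rfl fun y _ => ?_
  cases r.getD (idx (2 ^ n) (2 ^ (t * n)) (i / 2 ^ n) (i % 2 ^ n) y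
    (hv T y (prm (2 ^ (t * n - 1))))) false <;> simp

/-- The list of bits of the codeword, computable form. -/
def ecT (C t : ℕ) (x : (ℕ × ℕ) × (List Bool × List Bool)) : List Bool :=
  (List.range (powB x.1.2 (C * x.1.1) * powB x.1.2 x.1.1)).map fun i => ebT t (x, i)

lemma ptime_ecT (C t : ℕ) : PTime (ecT C t) := by
  unfold ecT
  exact PTime.map (g := fun (x : (ℕ × ℕ) × (List Bool × List Bool)) i => ebT t (x, i))
    (by fun_prop) (ptime_ebT t)

lemma ecT_eq {C t n N : ℕ} (h0 : 2 ^ (C * n) ≤ N) (h1 : 2 ^ n ≤ N) (h2 : 2 ^ (t * n) ≤ N)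
    (r T : List Bool) : ecT C t ((n, N), (r, T)) = ecl C t n r T := by
  unfold ecT ecl
  simp only
  rw [powB_eq h0, powB_eq h1]
  exact List.map_congr_left fun i _ => ebT_eq h1 h2 r T i

lemma wd_ecl {C t n μ : ℕ} (hμ : μ ≤ 2 ^ n) (r T : List Bool) {z : ℕ} (hz : z < 2 ^ (C * n)) :
    wd (2 ^ n) μ (ecl C t n r T) z = ecw μ (2 ^ n) (2 ^ (t * n)) (prm (2 ^ (t * n - 1)))
      (fun i => r.getD i false) T z := by
  unfold wd ecw
  congr 1
  refine List.map_congr_left fun j hj => ?_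
  rw [List.mem_range] at hj
  have hjJ : j < 2 ^ n := by omega
  have h1 : z * 2 ^ n + j < 2 ^ (C * n) * 2 ^ n := by
    calc z * 2 ^ n + j < z * 2 ^ n + 2 ^ n := by omega
      _ = (z + 1) * 2 ^ n := by ring
      _ ≤ _ := Nat.mul_le_mul_right _ hz
  have h2 : (z * 2 ^ n + j) / 2 ^ n = z := by
    rw [Nat.add_comm, Nat.add_mul_div_right _ _ (by omega), Nat.div_eq_of_lt hjJ, zero_add]
  have h3 : (z * 2 ^ n + j) % 2 ^ n = j := by
    rw [Nat.add_comm, Nat.add_mul_mod_self_right, Nat.mod_eq_of_lt hjJ]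
  unfold ecl
  simp [List.getD, h1, h2, h3]

/-! ### Significance -/

/-- The word symbol, capped. -/
def wdB (u b : ℕ) (x : (ℕ × ℕ) × List Bool) (z : ℕ) : ℕ :=
  valB x.1.2 ((List.range (u * x.1.1 + b)).map fun j =>
    x.2.getD (z * powB x.1.2 x.1.1 + j) false)

lemma ptime_wdB (u b : ℕ) : PTime fun y : ((ℕ × ℕ) × List Bool) × ℕ => wdB u b y.1 y.2 := by
  unfold wdB
  refine ptime_valB (by fun_prop) (PTime.map (g := fun (y : ((ℕ × ℕ) × List Bool) × ℕ) j =>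
    y.1.2.getD (y.2 * powB y.1.1.2 y.1.1.1 + j) false) (by fun_prop) ?_)
  exact PTime.listGetD (by fun_prop) (by fun_prop) (by fun_prop)

lemma wdB_eq {u b n N : ℕ} (h1 : 2 ^ n ≤ N) (h2 : 2 ^ (u * n + b) ≤ N) (L : List Bool) (z : ℕ) :
    wdB u b ((n, N), L) z = wd (2 ^ n) (u * n + b) L z := by
  unfold wdB wd
  simp only
  rw [powB_eq h1]
  refine valB_eq ?_
  have := val_lt ((List.range (u * n + b)).map fun j => L.getD (z * 2 ^ n + j) false)
  rw [List.length_map, List.length_range] at this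
  omega

/-- The number of hits, computable form. -/
def htT (C u b : ℕ) (x : (ℕ × ℕ) × (List Bool × List Bool)) : ℕ :=
  ((List.range (powB x.1.2 (C * x.1.1))).filter fun z =>
    x.2.2.getD (z + powB x.1.2 (C * x.1.1) * wdB u b (x.1, x.2.1) z) false).length

lemma ptime_htT (C u b : ℕ) : PTime (htT C u b) := by
  unfold htT
  have h1 : PTime fun y : ((ℕ × ℕ) × (List Bool × List Bool)) × ℕ =>
      wdB u b (y.1.1, y.1.2.1) y.2 :=
    (ptime_wdB u b).comp (f := fun y : ((ℕ × ℕ) × (List Bool × List Bool)) × ℕ =>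
      ((y.1.1, y.1.2.1), y.2)) (by fun_prop)
  refine PTime.length (PTime.filter (g := fun (x : (ℕ × ℕ) × (List Bool × List Bool)) z =>
    x.2.2.getD (z + powB x.1.2 (C * x.1.1) * wdB u b (x.1, x.2.1) z) false) (by fun_prop) ?_)
  exact PTime.listGetD (by fun_prop) (PTime.add (by fun_prop) (PTime.mul (by fun_prop) h1))
    (by fun_prop)

lemma htT_eq {C u b n N : ℕ} (h0 : 2 ^ (C * n) ≤ N) (h1 : 2 ^ n ≤ N) (h2 : 2 ^ (u * n + b) ≤ N)
    (L U : List Bool) : htT C u b ((n, N), (L, U)) =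
      hitN (2 ^ (C * n)) (wd (2 ^ n) (u * n + b) L) (fun i => U.getD i false) := by
  unfold htT hitN
  simp only
  rw [powB_eq h0, length_filter_range]
  congr 1
  refine Finset.filter_congr fun z _ => ?_
  rw [wdB_eq h1 h2]

/-- The number of pairs in the test, computable form. -/
def vlT (C u b : ℕ) (x : (ℕ × ℕ) × (List Bool × List Bool)) : ℕ :=
  ((List.range (powB x.1.2 (u * x.1.1 + b) * powB x.1.2 (C * x.1.1))).filter fun i =>
    x.2.2.getD i false).length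

lemma ptime_vlT (C u b : ℕ) : PTime (vlT C u b) := by
  unfold vlT
  exact PTime.length (PTime.filter (g := fun (x : (ℕ × ℕ) × (List Bool × List Bool)) i =>
    x.2.2.getD i false) (by fun_prop) (by fun_prop))

lemma vlT_eq {C u b n N : ℕ} (h0 : 2 ^ (C * n) ≤ N) (h2 : 2 ^ (u * n + b) ≤ N)
    (L U : List Bool) : vlT C u b ((n, N), (L, U)) =
      volN (2 ^ (C * n)) (2 ^ (u * n + b)) (fun i => U.getD i false) := by
  unfold vlT volN
  simp only
  rw [powB_eq h0, powB_eq h2, length_filter_range]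

/-- Significance, computable form. -/
def sgT (C u b Q : ℕ) (x : (ℕ × ℕ) × (List Bool × List Bool)) : Bool :=
  decide (powB x.1.2 (Q * x.1.1) * powB x.1.2 (u * x.1.1 + b) *
    (vlT C u b x + dif (powB x.1.2 (u * x.1.1 + b) * htT C u b x) (vlT C u b x)) <
    dif (powB x.1.2 (u * x.1.1 + b) * htT C u b x) (vlT C u b x) *
    dif (powB x.1.2 (u * x.1.1 + b) * htT C u b x) (vlT C u b x))

lemma ptime_sgT (C u b Q : ℕ) : PTime (sgT C u b Q) := by
  unfold sgT dif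
  have h1 := ptime_htT C u b
  have h2 := ptime_vlT C u b
  have h3 : PTime fun x : (ℕ × ℕ) × (List Bool × List Bool) =>
      powB x.1.2 (u * x.1.1 + b) * htT C u b x := PTime.mul (by fun_prop) h1
  have h4 : PTime fun x : (ℕ × ℕ) × (List Bool × List Bool) =>
      (powB x.1.2 (u * x.1.1 + b) * htT C u b x - vlT C u b x) +
        (vlT C u b x - powB x.1.2 (u * x.1.1 + b) * htT C u b x) :=
    PTime.add (PTime.sub h3 h2) (PTime.sub h2 h3)
  exact PTime.lt (PTime.mul (by fun_prop) (PTime.add h2 h4)) (PTime.mul h4 h4)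

lemma sgT_iff {C u b Q n N : ℕ} (h0 : 2 ^ (C * n) ≤ N) (h1 : 2 ^ n ≤ N)
    (h2 : 2 ^ (u * n + b) ≤ N) (h3 : 2 ^ (Q * n) ≤ N) (L U : List Bool) :
    sgT C u b Q ((n, N), (L, U)) = true ↔ Sig (2 ^ (C * n)) (2 ^ (u * n + b)) (2 ^ (Q * n))
      (wd (2 ^ n) (u * n + b) L) (fun i => U.getD i false) := by
  unfold sgT Sig
  rw [htT_eq h0 h1 h2, vlT_eq h0 h2, decide_eq_true_eq]
  simp only
  rw [powB_eq h2, powB_eq h3, sq]

/-! ### Badness -/

/-- Computable form of badness. -/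
def BadXP (C u b Q t D : ℕ) (x : (ℕ × ℕ) × List Bool) : Prop :=
  ∃ U : List Bool, sz U ≤ 1 + 4 * x.1.2 ∧ ∃ Λ : List (List Bool),
    sz Λ ≤ 1 + x.1.2 * (2 + 4 * x.1.2) ∧ ((Λ.length = powB x.1.2 (D * x.1.1) ∧
      ndp Λ = true) ∧ ∀ T ∈ Λ, (T.length = powB x.1.2 x.1.1 ∧
        sgT C u b Q (x.1, (ecT C t (x.1, (x.2, T)), U)) = true))

lemma psp_badXP (C u b Q t D : ℕ) : PSp (BadXP C u b Q t D) := by
  unfold BadXP
  refine PSp.exists_le (R := fun (x : (ℕ × ℕ) × List Bool) (U : List Bool) =>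
    ∃ Λ : List (List Bool),
    sz Λ ≤ 1 + x.1.2 * (2 + 4 * x.1.2) ∧ ((Λ.length = powB x.1.2 (D * x.1.1) ∧
      ndp Λ = true) ∧ ∀ T ∈ Λ, (T.length = powB x.1.2 x.1.1 ∧
        sgT C u b Q (x.1, (ecT C t (x.1, (x.2, T)), U)) = true))) ?_ (by fun_prop)
  refine PSp.exists_le (R := fun (y : ((ℕ × ℕ) × List Bool) × List Bool)
      (Λ : List (List Bool)) =>
      ((Λ.length = powB y.1.1.2 (D * y.1.1.1) ∧
      ndp Λ = true) ∧ ∀ T ∈ Λ, (T.length = powB y.1.1.2 y.1.1.1 ∧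
        sgT C u b Q (y.1.1, (ecT C t (y.1.1, (y.1.2, T)), y.2)) = true))) ?_ (by fun_prop)
  refine PSp.and (PSp.and (PSp.of_ptime (by fun_prop)) (PSp.of_ptime (by fun_prop))) ?_
  refine PSp.forall_mem (R := fun (z : (((ℕ × ℕ) × List Bool) × List Bool) ×
      List (List Bool)) (T : List Bool) => (T.length = powB z.1.1.1.2 z.1.1.1.1 ∧
      sgT C u b Q (z.1.1.1, (ecT C t (z.1.1.1, (z.1.1.2, T)), z.1.2)) = true)) ?_ (by fun_prop)
  refine PSp.and (PSp.of_ptime (by fun_prop)) (PSp.of_ptime ?_)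
  have h1 : PTime fun w : ((((ℕ × ℕ) × List Bool) × List Bool) × List (List Bool)) × List Bool =>
      ecT C t (w.1.1.1.1, (w.1.1.1.2, w.2)) := (ptime_ecT C t).comp (by fun_prop)
  exact PTime.decide_true' ((ptime_sgT C u b Q).comp
    (f := fun w : ((((ℕ × ℕ) × List Bool) × List Bool) × List (List Bool)) × List Bool =>
      (w.1.1.1.1, (ecT C t (w.1.1.1.1, (w.1.1.1.2, w.2)), w.1.1.2)))
    (PTime.pair (by fun_prop) (PTime.pair h1 (by fun_prop))))

/-- Badness at scale `n`. -/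
def BadS (C u b Q t D n : ℕ) (r : List Bool) : Prop :=
  ∃ U : ℕ → Bool, ∃ Λ : Finset (List Bool), Λ.card = 2 ^ (D * n) ∧ ∀ T ∈ Λ, T.length = 2 ^ n ∧
    Sig (2 ^ (C * n)) (2 ^ (u * n + b)) (2 ^ (Q * n))
      (wd (2 ^ n) (u * n + b) (ecl C t n r T)) U

lemma sig_ecl_iff {C u b Q t n : ℕ} (hμ : u * n + b ≤ 2 ^ n) (r T : List Bool) (U : ℕ → Bool) :
    Sig (2 ^ (C * n)) (2 ^ (u * n + b)) (2 ^ (Q * n)) (wd (2 ^ n) (u * n + b) (ecl C t n r T)) U ↔
      Sig (2 ^ (C * n)) (2 ^ (u * n + b)) (2 ^ (Q * n)) (ecw (u * n + b) (2 ^ n) (2 ^ (t * n))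
        (prm (2 ^ (t * n - 1))) (fun i => r.getD i false) T) U := by
  constructor
  · exact Sig_congr (fun z hz => wd_ecl hμ r T hz) (fun z _ => wd_lt _ _ _ _) (fun _ _ => rfl)
  · exact Sig_congr (fun z hz => (wd_ecl hμ r T hz).symm) (fun z _ => ecw_lt _ _ _ _ _ _ _)
      (fun _ _ => rfl)

lemma badS_iff {C u b Q t D n : ℕ} (hμ : u * n + b ≤ 2 ^ n) (r : List Bool) :
    BadS C u b Q t D n r ↔ BadX n (2 ^ (C * n)) (u * n + b) (2 ^ n) (2 ^ (t * n))
      (prm (2 ^ (t * n - 1))) (2 ^ (D * n)) (2 ^ (Q * n)) (fun i => r.getD i false) := by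
  unfold BadS BadX
  simp only [sig_ecl_iff hμ]

lemma badXP_iff {C u b Q t D n N : ℕ} (h0 : 2 ^ (C * n) ≤ N) (h1 : 2 ^ n ≤ N)
    (h2 : 2 ^ (u * n + b) ≤ N) (h3 : 2 ^ (Q * n) ≤ N) (h4 : 2 ^ (t * n) ≤ N)
    (h5 : 2 ^ (D * n) ≤ N) (h6 : 2 ^ (u * n + b) * 2 ^ (C * n) ≤ N) (r : List Bool) :
    BadXP C u b Q t D ((n, N), r) ↔ BadS C u b Q t D n r := by
  classical
  unfold BadXP BadS
  simp only
  rw [powB_eq h5, powB_eq h1]
  simp only [ecT_eq h0 h1 h4, sgT_iff h0 h1 h2 h3]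
  constructor
  · rintro ⟨U, -, Λ, -, ⟨h7, h8⟩, h9⟩
    rw [ndp_iff] at h8
    refine ⟨fun z => U.getD z false, Λ.toFinset, ?_, fun T hT => h9 T (List.mem_toFinset.1 hT)⟩
    rw [List.toFinset_card_of_nodup h8, h7]
  · rintro ⟨U, Λ, h7, h8⟩
    have e1 : ∀ z < 2 ^ (u * n + b) * 2 ^ (C * n),
        ((List.range (2 ^ (u * n + b) * 2 ^ (C * n))).map U).getD z false = U z := by
      intro z hz
      simp [List.getD, hz]
    refine ⟨(List.range (2 ^ (u * n + b) * 2 ^ (C * n))).map U, ?_, Λ.toList, ?_, ⟨?_, ?_⟩,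
      fun T hT => ?_⟩
    · have h9 := sz_bits_le ((List.range (2 ^ (u * n + b) * 2 ^ (C * n))).map U)
      rw [List.length_map, List.length_range] at h9
      omega
    · have h9 := sz_list_le Λ.toList (2 ^ (D * n)) (1 + 4 * 2 ^ n)
        (by rw [Finset.length_toList, h7]) (fun T hT => by
          have h10 := sz_bits_le T
          rwa [(h8 T (Finset.mem_toList.1 hT)).1] at h10)
      refine h9.trans ?_
      have h10 : 1 + (1 + 4 * 2 ^ n) ≤ 2 + 4 * N := by omega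
      exact Nat.add_le_add_left (Nat.mul_le_mul h5 h10) _
    · rw [Finset.length_toList, h7]
    · rw [ndp_iff]
      exact Finset.nodup_toList _
    · obtain ⟨h9, h10⟩ := h8 T (Finset.mem_toList.1 hT)
      exact ⟨h9, Sig_congr (fun _ _ => rfl) (fun z _ => wd_lt _ _ _ _)
        (fun i hi => (e1 i hi).symm) h10⟩

/-- Badness of the generated string. -/
def BadLX (C u b Q t D A C₃ c n : ℕ) (B : List Bool) (s : ℕ) : Prop :=
  BadS C u b Q t D n (gL A C₃ c n B s)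

/-- The property of the hard word. -/
def HdX (C u b Q t D A C₃ c C₂ u₂ b₂ Q₂ n : ℕ) (L : List Bool) : Prop :=
  ∀ U : List Bool, U.length = 2 ^ (C₂ * n + (u₂ * n + b₂)) →
    Sig (2 ^ (C₂ * n)) (2 ^ (u₂ * n + b₂)) (2 ^ (Q₂ * n)) (wd (2 ^ n) (u₂ * n + b₂) L)
      (fun i => U.getD i false) →
    ∃ s < 2 ^ (2 * (C₃ * n) * 2 ^ c), ¬ BadLX C u b Q t D A C₃ c n U s

/-- The computable form of the property of the hard word. -/
def HdXP (C u b Q t D A C₃ c C₂ u₂ b₂ Q₂ : ℕ) (x : (ℕ × ℕ) × List Bool) : Prop :=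
  ∀ U : List Bool, sz U ≤ 1 + 4 * x.1.2 →
    ((U.length = powB x.1.2 (C₂ * x.1.1 + (u₂ * x.1.1 + b₂)) ∧
      sgT C₂ u₂ b₂ Q₂ (x.1, (x.2, U)) = true) →
    ∃ s ∈ List.range (powB x.1.2 (2 * (C₃ * x.1.1) * 2 ^ c)),
      ¬ BadXP C u b Q t D ((x.1.1, x.1.2), gT A C₃ c (((x.1.1, x.1.2), U), s)))

lemma psp_HdXP (C u b Q t D A C₃ c C₂ u₂ b₂ Q₂ : ℕ) :
    PSp (HdXP C u b Q t D A C₃ c C₂ u₂ b₂ Q₂) := by
  unfold HdXP
  refine PSp.forall_le (R := fun (x : (ℕ × ℕ) × List Bool) (U : List Bool) =>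
    ((U.length = powB x.1.2 (C₂ * x.1.1 + (u₂ * x.1.1 + b₂)) ∧
      sgT C₂ u₂ b₂ Q₂ (x.1, (x.2, U)) = true) →
    ∃ s ∈ List.range (powB x.1.2 (2 * (C₃ * x.1.1) * 2 ^ c)),
      ¬ BadXP C u b Q t D ((x.1.1, x.1.2), gT A C₃ c (((x.1.1, x.1.2), U), s)))) ?_ (by fun_prop)
  refine PSp.imp (PSp.and (PSp.of_ptime (by fun_prop)) (PSp.of_ptime ?_)) ?_
  · exact PTime.decide_true' ((ptime_sgT C₂ u₂ b₂ Q₂).comp
      (f := fun x : ((ℕ × ℕ) × List Bool) × List Bool => (x.1.1, (x.1.2, x.2))) (by fun_prop))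
  · refine PSp.exists_mem (R := fun (y : ((ℕ × ℕ) × List Bool) × List Bool)
      (s : ℕ) => ¬ BadXP C u b Q t D ((y.1.1.1, y.1.1.2),
        gT A C₃ c (((y.1.1.1, y.1.1.2), y.2), s))) (PSp.not ?_) (by fun_prop)
    refine (psp_badXP C u b Q t D).comp (g := fun z : (((ℕ × ℕ) × List Bool) × List Bool) × ℕ =>
      ((z.1.1.1.1, z.1.1.1.2), gT A C₃ c (((z.1.1.1.1, z.1.1.1.2), z.1.2), z.2))) ?_
    exact PTime.pair (by fun_prop) ((ptime_gT A C₃ c).comp (by fun_prop))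

end Pool.Agent.H64.NE
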