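import Mathlib

/-!
# Statistical tests for functions on strings
-/

namespace Pool.Agent.H64.NE

/-- The number of strings `x` of length `n` with `α x f(x) ∈ V` (concatenation of strings). -/
noncomputable def hits (V : Set (List Bool)) (f : List Bool → List Bool) (α : List Bool)
    (n : ℕ) : ℝ :=
  {x : List Bool | x.length = n ∧ α ++ (x ++ f x) ∈ V}.ncard

/-- The mean of `hits V f α n` for a uniformly random function `f` from the strings of length `n`
to the strings of length `m`. -/
noncomputable def mean (V : Set (List Bool)) (α : List Bool) (n m : ℕ) : ℝ :=
  {w : List Bool | w.length = n + m ∧ α ++ w ∈ V}.ncard / 2 ^ m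

/-- The number of hits is far from its mean for random functions. -/
def Significant (κ : ℝ) (V : Set (List Bool)) (f : List Bool → List Bool) (α : List Bool)
    (n m : ℕ) : Prop :=
  (2 : ℝ) ^ (κ * n) * (mean V α n m + |hits V f α n - mean V α n m|) <
    (hits V f α n - mean V α n m) ^ 2

end Pool.Agent.H64.NE
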