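import Pool.Agent.H64.NE.TMain
import Pool.Agent.H64.NE.TDefs

/-!
# The equivalence
-/

namespace Pool.Agent.H64.NE

open Pool.Agent.H48.NE
open TMLib Polynomial Filter

set_option maxHeartbeats 1000000

/-! ### Strings and numbers -/

lemma val_append (x y : List Bool) : val (x ++ y) = val x + 2 ^ x.length * val y := by
  induction x with
  | nil => simp [val]
  | cons b x ih =>
    simp only [List.cons_append, val, ih, List.length_cons, pow_succ]
    ring

lemma bitsOf_append {n m v w : ℕ} (hv : v < 2 ^ n) (hw : w < 2 ^ m) :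
    bitsOf n v ++ bitsOf m w = bitsOf (n + m) (v + 2 ^ n * w) := by
  have h1 := bitsOf_val (bitsOf n v ++ bitsOf m w)
  rw [val_append, val_bitsOf hv, val_bitsOf hw, length_bitsOf, List.length_append,
    length_bitsOf, length_bitsOf] at h1
  exact h1.symm

open Classical in
lemma ncard_bits (P : List Bool → Prop) (n : ℕ) :
    {x : List Bool | x.length = n ∧ P x}.ncard =
      ((Finset.range (2 ^ n)).filter fun k => P (bitsOf n k)).card := by
  have h := ncard_eq {x | P x} n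
  simp only [Set.mem_ofPred_eq] at h
  rw [← h]
  congr 1
  ext x
  simp only [Set.mem_ofPred_eq]
  tauto

/-! ### Unary languages -/

/-- Every unary language in `EXPSPACE` is in `NEXPTIME`. -/
def UnaryH : Prop := ∀ L ∈ EXPSPACE, (∀ x ∈ L, true ∉ x) → L ∈ NEXPTIME

lemma bitsOf_zero (n : ℕ) : bitsOf n 0 = List.replicate n false := by
  induction n with
  | zero => rfl
  | succ n ih => simp [bitsOf, ih, List.replicate_succ]

lemma majH_of_unaryH (H : UnaryH) : MajH := by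
  classical
  intro R hR hall
  have hR' : ESn fun l k => k = 0 ∧ R l k := by
    obtain ⟨c, P, hP, h⟩ := hR
    refine ⟨c, fun q => q.2.1 = 0 ∧ P q, PSp.and (PSp.of_ptime (by fun_prop)) hP, ?_⟩
    intro n k N hk hN
    simp only
    rw [h n k N hk hN]
  have h1 := H _ (mem_of_esn hR') (by
    intro x hx
    have h2 : val x = 0 := hx.1
    have h3 := bitsOf_val x
    rw [h2, bitsOf_zero] at h3
    rw [← h3]
    simp)
  obtain ⟨c, P, hP, h⟩ := nen_of_mem h1
  refine ⟨fun n _ => R n 0, ⟨c, fun q => P (q.1, 0, q.2.2), ?_, ?_⟩, 0, fun n _ => ?_⟩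
  · exact hP.comp (g := fun q : ℕ × ℕ × ℕ => (q.1, 0, q.2.2)) (by fun_prop)
  · intro n k N hk hN
    simp only
    rw [h n 0 N (by positivity) hN]
    beta_reduce
    rw [bitsOf_lang (by positivity)]
    simp
  · have h6 : agr n R (fun n _ => R n 0) = 2 ^ n := agr_full fun k => hall n 0 k
    rw [h6]
    have h7 : 0 < 2 ^ n := by positivity
    omega

/-! ### From functions on strings to words -/

/-- The symbol of the function at a string of length `n'` with value `z`. -/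
def fvl (C u b : ℕ) (Fw : ℕ → List Bool) (n' z : ℕ) : ℕ :=
  if C ∣ n' then wd (2 ^ (n' / C)) (u * (n' / C) + b) (Fw (n' / C)) z else 0

/-- The function on strings. -/
def ffn (a c b C u : ℕ) (Fw : ℕ → List Bool) (x : List Bool) : List Bool :=
  bitsOf (a * x.length / c + b) (fvl C u b Fw x.length (val x))

lemma mu_eq {a c b C C' u n : ℕ} (hc : 1 ≤ c) (hC : C = c * C') (hu : u = a * C') :
    a * (C * n) / c + b = u * n + b := by
  rw [hC, hu, show a * (c * C' * n) = c * (a * C' * n) by ring, Nat.mul_div_cancel_left _ hc]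

lemma fvl_lt {a c b C C' u : ℕ} (hc : 1 ≤ c) (hC : C = c * C') (hC1 : 1 ≤ C) (hu : u = a * C')
    (Fw : ℕ → List Bool) (n' z : ℕ) : fvl C u b Fw n' z < 2 ^ (a * n' / c + b) := by
  unfold fvl
  split_ifs with h
  · obtain ⟨n, rfl⟩ := h
    rw [Nat.mul_div_cancel_left _ hC1, mu_eq hc hC hu]
    exact wd_lt _ _ _ _
  · positivity

lemma graph_mem {a c b C C' u : ℕ} (hc : 1 ≤ c) (hC : C = c * C') (hC1 : 1 ≤ C) (hu : u = a * C')
    {Fw : ℕ → List Bool} (hFw : ESf Fw) :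
    {w | ∃ x, w = x ++ ffn a c b C u Fw x} ∈ EXPSPACE := by
  classical
  rw [mem_EXPSPACE_iff]
  obtain ⟨PF, hPF, hPF'⟩ := hFw
  have hb1 := eventually_two_pow_le ⊤ 1
  have hb3 := eventually_le_two_pow ⊤ (c := u + b) (fun n => u * n + b) (fun n => by nlinarith)
  obtain ⟨d, hd⟩ := eventually_big_top.1 (eventually_forall_le (hPF'.and (hb1.and hb3)) ⊤ 1)
  refine ⟨d, fun q => ∃ n' ∈ List.range (q.1 + 1), q.1 = n' + (a * n' / c + b) ∧
    (((∀ n ∈ List.range (q.1 + 1), n' ≠ C * n) ∧ q.2.1 / powB q.2.2 n' = 0) ∨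
      ∃ n ∈ List.range (q.1 + 1), n' = C * n ∧ ∃ L : List Bool, sz L ≤ q.2.2 ∧
        (PF (n, L, q.2.2) ∧ q.2.1 / powB q.2.2 n' =
          wdB u b ((n, q.2.2), L) (q.2.1 % powB q.2.2 n'))), ?_, ?_⟩
  · refine PSp.exists_mem (R := fun (q : ℕ × ℕ × ℕ) n' => q.1 = n' + (a * n' / c + b) ∧
      (((∀ n ∈ List.range (q.1 + 1), n' ≠ C * n) ∧ q.2.1 / powB q.2.2 n' = 0) ∨
      ∃ n ∈ List.range (q.1 + 1), n' = C * n ∧ ∃ L : List Bool, sz L ≤ q.2.2 ∧
        (PF (n, L, q.2.2) ∧ q.2.1 / powB q.2.2 n' =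
          wdB u b ((n, q.2.2), L) (q.2.1 % powB q.2.2 n')))) ?_ (by fun_prop)
    refine PSp.and (PSp.of_ptime (by fun_prop)) (PSp.or (PSp.and ?_ (PSp.of_ptime (by fun_prop)))
      ?_)
    · refine PSp.forall_mem (R := fun (s : (ℕ × ℕ × ℕ) × ℕ) n => s.2 ≠ C * n)
        (PSp.not (P := fun s : ((ℕ × ℕ × ℕ) × ℕ) × ℕ => s.1.2 = C * s.2)
          (PSp.of_ptime (by fun_prop))) (by fun_prop)
    · refine PSp.exists_mem (R := fun (s : (ℕ × ℕ × ℕ) × ℕ) n => s.2 = C * n ∧ ∃ L : List Bool,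
        sz L ≤ s.1.2.2 ∧ (PF (n, L, s.1.2.2) ∧ s.1.2.1 / powB s.1.2.2 s.2 =
          wdB u b ((n, s.1.2.2), L) (s.1.2.1 % powB s.1.2.2 s.2))) ?_ (by fun_prop)
      refine PSp.and (PSp.of_ptime (by fun_prop)) ?_
      refine PSp.exists_le (R := fun (s : ((ℕ × ℕ × ℕ) × ℕ) × ℕ) (L : List Bool) =>
        PF (s.2, L, s.1.1.2.2) ∧ s.1.1.2.1 / powB s.1.1.2.2 s.1.2 =
          wdB u b ((s.2, s.1.1.2.2), L) (s.1.1.2.1 % powB s.1.1.2.2 s.1.2)) ?_ (by fun_prop)
      refine PSp.and ?_ (PSp.of_ptime (PTime.eq (by fun_prop) ?_))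
      · exact hPF.comp (g := fun x : (((ℕ × ℕ × ℕ) × ℕ) × ℕ) × List Bool =>
          (x.1.2, x.2, x.1.1.1.2.2)) (by fun_prop)
      · exact (ptime_wdB u b).comp (f := fun x : (((ℕ × ℕ × ℕ) × ℕ) × ℕ) × List Bool =>
          (((x.1.2, x.1.1.1.2.2), x.2), x.1.1.1.2.1 % powB x.1.1.1.2.2 x.1.1.2)) (by fun_prop)
  · intro l k N hk hN
    have h2 := hd l N hN
    simp only [one_mul] at h2
    -- membership in the graph in terms of numbers
    have key : bitsOf l k ∈ {w | ∃ x, w = x ++ ffn a c b C u Fw x} ↔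
        ∃ n', l = n' + (a * n' / c + b) ∧ k / 2 ^ n' = fvl C u b Fw n' (k % 2 ^ n') := by
      constructor
      · rintro ⟨x, hx⟩
        have h3 := congrArg List.length hx
        rw [length_bitsOf, List.length_append, ffn, length_bitsOf] at h3
        have h4 := congrArg val hx
        rw [val_bitsOf hk, val_append, ffn, val_bitsOf (fvl_lt hc hC hC1 hu Fw _ _)] at h4
        refine ⟨x.length, h3, ?_⟩
        have h5 := val_lt x
        rw [h4, Nat.add_mul_div_left _ _ (by positivity), Nat.div_eq_of_lt h5, zero_add,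
          Nat.add_mul_mod_self_left, Nat.mod_eq_of_lt h5]
      · rintro ⟨n', h3, h4⟩
        have h5 : k % 2 ^ n' < 2 ^ n' := Nat.mod_lt _ (by positivity)
        refine ⟨bitsOf n' (k % 2 ^ n'), ?_⟩
        unfold ffn
        rw [length_bitsOf, val_bitsOf h5, bitsOf_append h5 (fvl_lt hc hC hC1 hu Fw _ _), ← h4,
          ← h3, Nat.mod_add_div]
    beta_reduce
    rw [key]
    have hpw : ∀ n' ≤ l, powB N n' = 2 ^ n' := fun n' hn' => powB_eq (h2 n' (by omega)).2.1
    simp only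
    constructor
    · rintro ⟨n', hn', h3, h4⟩
      rw [List.mem_range] at hn'
      rw [hpw n' (by omega)] at h4
      refine ⟨n', h3, ?_⟩
      rcases h4 with ⟨h5, h6⟩ | ⟨n, hn, h5, L, -, h6, h7⟩
      · unfold fvl
        rw [if_neg, h6]
        rintro ⟨n, hn⟩
        have h7 : n ≤ C * n := Nat.le_mul_of_pos_left _ hC1
        exact h5 n (List.mem_range.2 (by omega)) hn
      · rw [List.mem_range] at hn
        have h8 := h2 n (by omega)
        rw [h8.1.2] at h6
        subst h6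
        rw [h7, wdB_eq h8.2.1 h8.2.2]
        unfold fvl
        rw [if_pos ⟨n, h5⟩, h5, Nat.mul_div_cancel_left _ hC1]
    · rintro ⟨n', h3, h4⟩
      have hle : n' ≤ l := by
        rw [h3]
        exact Nat.le_add_right _ _
      refine ⟨n', List.mem_range.2 (by omega), h3, ?_⟩
      rw [hpw n' hle]
      unfold fvl at h4
      by_cases h5 : C ∣ n'
      · rw [if_pos h5] at h4
        obtain ⟨n, hn⟩ := h5
        have h7 : n ≤ C * n := Nat.le_mul_of_pos_left _ hC1
        rw [hn, Nat.mul_div_cancel_left _ hC1, ← hn] at h4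
        have h8 := h2 n (by omega)
        refine Or.inr ⟨n, List.mem_range.2 (by omega), hn, Fw n, h8.1.1, (h8.1.2 _).2 rfl, ?_⟩
        rw [h4, wdB_eq h8.2.1 h8.2.2]
      · rw [if_neg h5] at h4
        refine Or.inl ⟨fun n _ h6 => h5 ⟨n, h6⟩, h4⟩

/-! ### Significance in terms of real numbers -/

lemma sig_of_real {M q S : ℕ} (hq : 0 < q) {w : ℕ → ℕ} {U : ℕ → Bool}
    (h : (S : ℝ) * ((volN M q U : ℝ) / q + |(hitN M w U : ℝ) - (volN M q U : ℝ) / q|) <
      ((hitN M w U : ℝ) - (volN M q U : ℝ) / q) ^ 2) : Sig M q S w U := by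
  have hq' : (0 : ℝ) < q := by exact_mod_cast hq
  unfold Sig
  have e1 : |(q : ℝ) * (hitN M w U : ℝ) - (volN M q U : ℝ)| =
      q * |(hitN M w U : ℝ) - (volN M q U : ℝ) / q| := by
    rw [← abs_of_pos hq', ← abs_mul, abs_of_pos hq']
    congr 1
    field_simp
  have e2 : (volN M q U : ℝ) = q * ((volN M q U : ℝ) / q) := by field_simp
  have h1 : (S : ℝ) * q * ((volN M q U : ℝ) + |(q : ℝ) * (hitN M w U : ℝ) - (volN M q U : ℝ)|) <
      |(q : ℝ) * (hitN M w U : ℝ) - (volN M q U : ℝ)| ^ 2 := by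
    rw [e1, mul_pow, sq_abs]
    nth_rewrite 1 [e2]
    have h2 := mul_lt_mul_of_pos_left h (show (0 : ℝ) < q ^ 2 by positivity)
    calc (S : ℝ) * q * (q * ((volN M q U : ℝ) / q) +
        q * |(hitN M w U : ℝ) - (volN M q U : ℝ) / q|) =
        q ^ 2 * ((S : ℝ) * ((volN M q U : ℝ) / q +
          |(hitN M w U : ℝ) - (volN M q U : ℝ) / q|)) := by ring
      _ < _ := h2
  have h3 : ((S * q * (volN M q U + dif (q * hitN M w U) (volN M q U)) : ℕ) : ℝ) <
      ((dif (q * hitN M w U) (volN M q U) ^ 2 : ℕ) : ℝ) := by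
    push_cast
    rw [dif_cast]
    push_cast
    exact h1
  exact_mod_cast h3

/-- Every function with graph in `EXPSPACE` fails a test. -/
def TestsH (κ : ℝ) (a b c e : ℕ) : Prop :=
  ∀ f : List Bool → List Bool, (∀ x, (f x).length = a * x.length / c + b) →
    {w | ∃ x, w = x ++ f x} ∈ EXPSPACE →
    ∃ V ∈ NEXPTIME, ∃ n₀ : ℕ, ∀ n ≥ n₀, ∃ α : List Bool, α.length = e * n ∧
      Significant κ V f α n (a * n / c + b)

lemma testH_of_tests {κ : ℝ} {a b c e C C' u Q : ℕ} (hc : 1 ≤ c) (hC : C = c * C')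
    (hC1 : 1 ≤ C) (hu : u = a * C') (hQ : (Q : ℝ) ≤ κ * C) (H : TestsH κ a b c e) :
    TestH C u b e Q := by
  classical
  intro Fw hFw
  have hlen : ∀ x, (ffn a c b C u Fw x).length = a * x.length / c + b := fun x => by
    unfold ffn
    rw [length_bitsOf]
  obtain ⟨V, hV, n₀, hn₀⟩ := H (ffn a c b C u Fw) hlen (graph_mem hc hC hC1 hu hFw)
  refine ⟨fun l k => bitsOf l k ∈ V, nen_of_mem hV, n₀, fun n hn => ?_⟩
  have hCn : n ≤ C * n := Nat.le_mul_of_pos_left _ hC1
  obtain ⟨α, hα, hsig⟩ := hn₀ (C * n) (by omega)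
  have hvα : val α < 2 ^ (e * (C * n)) := by
    have := val_lt α
    rwa [hα] at this
  have hbα : bitsOf (e * (C * n)) (val α) = α := by
    have := bitsOf_val α
    rwa [hα] at this
  refine ⟨val α, hvα, fun U hU => ?_⟩
  have hmu : a * (C * n) / c + b = u * n + b := mu_eq hc hC hu
  rw [hmu] at hsig
  -- strings in the test
  have hstr : ∀ z v, z < 2 ^ (C * n) → v < 2 ^ (u * n + b) →
      (U (z + 2 ^ (C * n) * v) = true ↔
        α ++ (bitsOf (C * n) z ++ bitsOf (u * n + b) v) ∈ V) := by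
    intro z v hz hv
    have h1 : z + 2 ^ (C * n) * v < 2 ^ (u * n + b) * 2 ^ (C * n) := by
      calc z + 2 ^ (C * n) * v < 2 ^ (C * n) + 2 ^ (C * n) * v := by omega
        _ = (v + 1) * 2 ^ (C * n) := by ring
        _ ≤ _ := Nat.mul_le_mul_right _ hv
    have h2 : z + 2 ^ (C * n) * v < 2 ^ (C * n + (u * n + b)) := by
      rw [pow_add, Nat.mul_comm (2 ^ (C * n)) (2 ^ (u * n + b))]
      exact h1
    rw [hU _ h1]
    beta_reduce
    rw [bitsOf_append hz hv, ← bitsOf_append hvα h2, hbα]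
  have hhits : hits V (ffn a c b C u Fw) α (C * n) =
      ((hitN (2 ^ (C * n)) (wd (2 ^ n) (u * n + b) (Fw n)) U : ℕ) : ℝ) := by
    unfold hits hitN
    rw [ncard_bits (fun x => α ++ (x ++ ffn a c b C u Fw x) ∈ V)]
    congr 2
    refine Finset.filter_congr fun z hz => ?_
    rw [Finset.mem_range] at hz
    have h1 : ffn a c b C u Fw (bitsOf (C * n) z) =
        bitsOf (u * n + b) (wd (2 ^ n) (u * n + b) (Fw n) z) := by
      unfold ffn fvl
      rw [length_bitsOf, val_bitsOf hz, if_pos ⟨n, rfl⟩, Nat.mul_div_cancel_left _ hC1, hmu]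
    rw [h1, hstr z _ hz (wd_lt _ _ _ _)]
  have hvol : mean V α (C * n) (u * n + b) =
      ((volN (2 ^ (C * n)) (2 ^ (u * n + b)) U : ℕ) : ℝ) / ((2 ^ (u * n + b) : ℕ) : ℝ) := by
    unfold mean volN
    rw [ncard_bits (fun w => α ++ w ∈ V), pow_add, Nat.mul_comm (2 ^ (C * n))]
    push_cast
    congr 3
    refine Finset.filter_congr fun i hi => ?_
    rw [Finset.mem_range] at hi
    have h1 : i % 2 ^ (C * n) < 2 ^ (C * n) := Nat.mod_lt _ (by positivity)
    have h2 : i / 2 ^ (C * n) < 2 ^ (u * n + b) := Nat.div_lt_of_lt_mul (by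
      rw [Nat.mul_comm]
      exact hi)
    have h3 := hstr _ _ h1 h2
    rw [bitsOf_append h1 h2, Nat.mod_add_div] at h3
    exact h3.symm
  unfold Significant at hsig
  rw [hhits, hvol] at hsig
  refine sig_of_real (by positivity) (lt_of_le_of_lt ?_ hsig)
  refine mul_le_mul_of_nonneg_right ?_ (by positivity)
  push_cast
  rw [← Real.rpow_natCast 2 (Q * n)]
  refine Real.rpow_le_rpow_of_exponent_le (by norm_num) ?_
  push_cast
  have h3 : (0 : ℝ) ≤ n := Nat.cast_nonneg n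
  nlinarith

theorem subset_of_tests {κ : ℝ} (h0 : 0 < κ) {a b c e : ℕ} (hc : 1 ≤ c) (H1 : UnaryH)
    (H : TestsH κ a b c e) : EXPSPACE ⊆ NEXPTIME := by
  have hc0 : (1 : ℝ) ≤ c := by exact_mod_cast hc
  -- first scale
  obtain ⟨C', hC'⟩ := exists_nat_ge (5 / κ + 1)
  have h2 : 0 < 5 / κ := by positivity
  have hC'1 : 1 ≤ C' := by
    have : (1 : ℝ) ≤ C' := by linarith
    exact_mod_cast this
  have hscale : ∀ (Q D : ℕ), (Q : ℝ) / κ + 1 ≤ D → (Q : ℝ) ≤ κ * ((c * D : ℕ) : ℝ) := by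
    intro Q D hD
    have h3 : (Q : ℝ) / κ ≤ D := by linarith
    rw [div_le_iff₀ h0] at h3
    have h4 : (0 : ℝ) ≤ D := Nat.cast_nonneg _
    have h5 : (D : ℝ) * κ ≤ κ * (c * D) := by
      have h6 : 0 ≤ κ * (D : ℝ) := by positivity
      nlinarith
    push_cast
    linarith
  obtain ⟨C, hC⟩ : ∃ C, C = c * C' := ⟨_, rfl⟩
  have hC1 : 1 ≤ C := by rw [hC]; exact Nat.mul_pos hc hC'1
  have hT : TestH C (a * C') b e 5 := by
    refine testH_of_tests hc hC hC1 rfl ?_ H
    rw [hC]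
    refine hscale 5 C' ?_
    push_cast
    exact hC'
  obtain ⟨D, hD⟩ : ∃ D, D = C + a * C' + b := ⟨_, rfl⟩
  obtain ⟨t, ht⟩ : ∃ t, t = 2 * D + 2 := ⟨_, rfl⟩
  obtain ⟨A, hA⟩ : ∃ A, A = C + 1 + 2 * t := ⟨_, rfl⟩
  obtain ⟨Q₂, hQ₂⟩ : ∃ Q₂, Q₂ = 3 * A + 5 := ⟨_, rfl⟩
  -- second scale
  obtain ⟨C₂', hC₂'⟩ := exists_nat_ge ((Q₂ : ℝ) / κ + 1)
  have h3 : 0 ≤ (Q₂ : ℝ) / κ := by positivity
  have hC₂'1 : 1 ≤ C₂' := by
    have : (1 : ℝ) ≤ C₂' := by linarith
    exact_mod_cast this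
  obtain ⟨C₂, hC₂⟩ : ∃ C₂, C₂ = c * C₂' := ⟨_, rfl⟩
  have hC₂1 : 1 ≤ C₂ := by rw [hC₂]; exact Nat.mul_pos hc hC₂'1
  have hT₂ : TestH C₂ (a * C₂') b e Q₂ := by
    refine testH_of_tests hc hC₂ hC₂1 rfl ?_ H
    rw [hC₂]
    exact hscale Q₂ C₂' hC₂'
  intro L hL
  rw [mem_NEXPTIME_iff]
  exact nen_of_tests hC1 hC₂1 hD ht hA hQ₂ hT hT₂ (majH_of_unaryH H1) (esn_of_mem hL)

/-! ### The other direction -/

lemma len_inj {a b c e n n' : ℕ} (h : e * n' + (n' + (a * n' / c + b)) =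
    e * n + (n + (a * n / c + b))) : n' = n := by
  rcases lt_trichotomy n' n with h1 | h1 | h1
  · have h2 : e * n' ≤ e * n := Nat.mul_le_mul_left _ h1.le
    have h3 : a * n' / c ≤ a * n / c := Nat.div_le_div_right (Nat.mul_le_mul_left _ h1.le)
    generalize a * n' / c = y at h h3
    generalize a * n / c = y' at h h3
    omega
  · exact h1
  · have h2 : e * n ≤ e * n' := Nat.mul_le_mul_left _ h1.le
    have h3 : a * n / c ≤ a * n' / c := Nat.div_le_div_right (Nat.mul_le_mul_left _ h1.le)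
    generalize a * n' / c = y at h h3
    generalize a * n / c = y' at h h3
    omega

/-- The graph with ignored advice. -/
def advG (a b c e : ℕ) (G : Set (List Bool)) : Set (List Bool) :=
  {s | ∃ n, s.length = e * n + (n + (a * n / c + b)) ∧ s.drop (e * n) ∈ G}

lemma drop_bitsOf {n m v w : ℕ} (hv : v < 2 ^ n) (hw : w < 2 ^ m) :
    (bitsOf (n + m) (v + 2 ^ n * w)).drop n = bitsOf m w := by
  rw [← bitsOf_append hv hw, List.drop_append_of_le_length (by simp)]
  simp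

lemma advG_mem {a b c e : ℕ} {G : Set (List Bool)} (hG : G ∈ EXPSPACE) :
    advG a b c e G ∈ EXPSPACE := by
  rw [mem_EXPSPACE_iff] at hG ⊢
  obtain ⟨d, P, hP, h⟩ := hG
  refine ⟨d + 1, fun q => ∃ n ∈ List.range (q.1 + 1), q.1 = e * n + (n + (a * n / c + b)) ∧
    P (n + (a * n / c + b), q.2.1 / powB q.2.2 (e * n), q.2.2), ?_, ?_⟩
  · refine PSp.exists_mem (R := fun (q : ℕ × ℕ × ℕ) n =>
      q.1 = e * n + (n + (a * n / c + b)) ∧
      P (n + (a * n / c + b), q.2.1 / powB q.2.2 (e * n), q.2.2)) ?_ (by fun_prop)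
    refine PSp.and (PSp.of_ptime (by fun_prop)) ?_
    exact hP.comp (g := fun x : (ℕ × ℕ × ℕ) × ℕ =>
      (x.2 + (a * x.2 / c + b), x.1.2.1 / powB x.1.2.2 (e * x.2), x.1.2.2)) (by fun_prop)
  · intro l k N hk hN
    have hN1 : ∀ m ≤ l, 2 ^ (d * (m + 1)) ≤ N := fun m hm =>
      le_trans (Nat.pow_le_pow_right (by norm_num) (Nat.mul_le_mul (by omega) (by omega))) hN
    have hN2 : ∀ m ≤ l, 2 ^ m ≤ N := fun m hm => by
      refine le_trans (Nat.pow_le_pow_right (by norm_num) ?_) hN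
      calc m ≤ 1 * (l + 1) := by omega
        _ ≤ _ := Nat.mul_le_mul_right _ (by omega)
    beta_reduce
    unfold advG
    simp only [Set.mem_ofPred_eq, length_bitsOf]
    have key : ∀ n, l = e * n + (n + (a * n / c + b)) →
        (P (n + (a * n / c + b), k / powB N (e * n), N) ↔ (bitsOf l k).drop (e * n) ∈ G) := by
      intro n hn
      obtain ⟨m, hm⟩ : ∃ m, m = n + (a * n / c + b) := ⟨_, rfl⟩
      rw [← hm] at hn ⊢
      rw [powB_eq (hN2 _ (by omega))]
      have h1 : k % 2 ^ (e * n) < 2 ^ (e * n) := Nat.mod_lt _ (by positivity)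
      have h2 : k / 2 ^ (e * n) < 2 ^ m := Nat.div_lt_of_lt_mul (by
        rw [← pow_add, ← hn]
        exact hk)
      have h3 := drop_bitsOf h1 h2
      rw [Nat.mod_add_div, ← hn] at h3
      rw [h3]
      exact h m _ N h2 (hN1 m (by omega))
    constructor
    · rintro ⟨n, -, h1, h2⟩
      exact ⟨n, h1, (key n h1).1 h2⟩
    · rintro ⟨n, h1, h2⟩
      have hle : n ≤ l := by
        rw [h1]
        calc n ≤ n + (a * n / c + b) := Nat.le_add_right _ _
          _ ≤ _ := Nat.le_add_left _ _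
      exact ⟨n, List.mem_range.2 (by omega), h1, (key n h1).2 h2⟩

theorem tests_of_eq {κ : ℝ} (h1 : κ < 1) {a b c e : ℕ} (hb : 1 ≤ b)
    (h : NEXPTIME = EXPSPACE) : TestsH κ a b c e := by
  classical
  intro f hf hG
  set G : Set (List Bool) := {w | ∃ x, w = x ++ f x} with hGdef
  obtain ⟨n₀, hn₀⟩ := exists_nat_gt (2 / (1 - κ))
  refine ⟨advG a b c e G, h ▸ advG_mem hG, n₀, fun n hn => ?_⟩
  obtain ⟨m, hm⟩ : ∃ m, m = a * n / c + b := ⟨_, rfl⟩
  refine ⟨List.replicate (e * n) false, by simp, ?_⟩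
  rw [← hm]
  set α : List Bool := List.replicate (e * n) false with hα
  have hαl : α.length = e * n := by simp [hα]
  have hmem : ∀ w : List Bool, w.length = n + m → (α ++ w ∈ advG a b c e G ↔ w ∈ G) := by
    intro w hw
    unfold advG
    rw [Set.mem_ofPred_eq, List.length_append, hαl, hw]
    constructor
    · rintro ⟨n', h2, h3⟩
      rw [hm] at h2
      have h4 := len_inj h2.symm
      subst h4
      rwa [← hαl, List.drop_left] at h3
    · intro h2
      refine ⟨n, by rw [hm], ?_⟩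
      rwa [← hαl, List.drop_left]
  have hhits : hits (advG a b c e G) f α n = (2 : ℝ) ^ n := by
    unfold hits
    have e1 : {x : List Bool | x.length = n ∧ α ++ (x ++ f x) ∈ advG a b c e G} =
        {x | x.length = n} := by
      ext x
      simp only [Set.mem_ofPred_eq, and_iff_left_iff_imp]
      intro hx
      rw [hmem _ (by rw [List.length_append, hf, hx, hm])]
      exact ⟨x, rfl⟩
    rw [e1, ncard_lists]
    push_cast
    rfl
  have hmean : mean (advG a b c e G) α n m = (2 : ℝ) ^ n / 2 ^ m := by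
    unfold mean
    have e1 : {w : List Bool | w.length = n + m ∧ α ++ w ∈ advG a b c e G} =
        (fun x => x ++ f x) '' {x | x.length = n} := by
      ext w
      simp only [Set.mem_ofPred_eq, Set.mem_image]
      constructor
      · rintro ⟨h2, h3⟩
        rw [hmem w h2] at h3
        obtain ⟨x, hx⟩ := h3
        refine ⟨x, ?_, hx.symm⟩
        rw [hx, List.length_append, hf, hm] at h2
        have h4 : (0 : ℕ) * x.length + (x.length + (a * x.length / c + b)) =
            0 * n + (n + (a * n / c + b)) := by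
          rw [Nat.zero_mul, Nat.zero_mul, Nat.zero_add, Nat.zero_add]
          exact h2
        exact len_inj h4
      · rintro ⟨x, hx, rfl⟩
        have h2 : (x ++ f x).length = n + m := by rw [List.length_append, hf, hx, hm]
        exact ⟨h2, (hmem _ h2).2 ⟨x, rfl⟩⟩
    rw [e1, Set.InjOn.ncard_image, ncard_lists]
    · push_cast
      rfl
    · intro x hx x' hx' hxx
      exact List.append_inj_left hxx (by
        rw [Set.mem_ofPred_eq] at hx hx'
        rw [hx, hx'])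
  unfold Significant
  rw [hhits, hmean]
  have hm1 : 1 ≤ m := by rw [hm]; exact le_trans hb (Nat.le_add_left _ _)
  have h2m : (2 : ℝ) ≤ 2 ^ m := by
    calc (2 : ℝ) = 2 ^ 1 := by norm_num
      _ ≤ _ := pow_le_pow_right₀ (by norm_num) hm1
  have hpos : (0 : ℝ) < 2 ^ n := by positivity
  have hle : (2 : ℝ) ^ n / 2 ^ m ≤ 2 ^ n / 2 := by
    exact div_le_div_of_nonneg_left hpos.le (by norm_num) h2m
  rw [abs_of_nonneg (by linarith)]
  have e2 : (2 : ℝ) ^ n / 2 ^ m + (2 ^ n - 2 ^ n / 2 ^ m) = 2 ^ n := by ring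
  rw [e2]
  have h3 : ((2 : ℝ) ^ n / 2) ^ 2 ≤ (2 ^ n - 2 ^ n / 2 ^ m) ^ 2 := by
    refine pow_le_pow_left₀ (by positivity) ?_ 2
    linarith
  refine lt_of_lt_of_le ?_ h3
  have h4 : ((2 : ℝ) ^ n / 2) ^ 2 = 2 ^ ((n : ℝ) - 2) * 2 ^ n := by
    rw [Real.rpow_sub (by norm_num), Real.rpow_natCast]
    norm_num
    ring
  rw [h4]
  refine mul_lt_mul_of_pos_right ?_ hpos
  refine Real.rpow_lt_rpow_of_exponent_lt (by norm_num) ?_
  have h5 : (n₀ : ℝ) ≤ n := by exact_mod_cast hn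
  have h6 : 2 / (1 - κ) < n := lt_of_lt_of_le hn₀ h5
  rw [div_lt_iff₀ (by linarith)] at h6
  linarith

/-- The equivalence. -/
theorem main {κ : ℝ} (h0 : 0 < κ) (h1 : κ < 1) {a b c e : ℕ} (hb : 1 ≤ b) (hc : 1 ≤ c) :
    NEXPTIME = EXPSPACE ↔ UnaryH ∧ TestsH κ a b c e :=
  ⟨fun h => ⟨fun _ hL _ => h ▸ hL, tests_of_eq h1 hb h⟩, fun h =>
    Set.Subset.antisymm NEXPTIME_subset_EXPSPACE (subset_of_tests h0 hc h.1 h.2)⟩

end Pool.Agent.H64.NE
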