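import Pool.Agent.H64.NE.TTest

/-!
# From tests to the collapse
-/

namespace Pool.Agent.H64.NE

open Pool.Agent.H48.NE
open TMLib Polynomial Filter

set_option maxHeartbeats 1000000

lemma eventually_pows_two_pow_ge (K : ℕ) : ∀ᶠ n in pows, K * (n + 1) ≤ 2 ^ n := by
  refine eventually_pows.2 ⟨2 * K, fun j hj => ?_⟩
  have h1 : 2 * j ≤ 2 ^ j := by
    rcases Nat.eq_zero_or_pos j with rfl | h0
    · simp
    · have h2 : j - 1 < 2 ^ (j - 1) := Nat.lt_two_pow_self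
      have h3 : 2 ^ j = 2 * 2 ^ (j - 1) := by
        rw [← pow_succ']
        congr 1
        omega
      omega
  have h4 : 2 ^ j * 2 ^ j ≤ 2 ^ 2 ^ j := by
    rw [← pow_add]
    exact Nat.pow_le_pow_right (by norm_num) (by omega)
  have h5 : 1 ≤ 2 ^ j := Nat.one_le_two_pow
  refine le_trans ?_ h4
  calc K * (2 ^ j + 1) ≤ K * (2 * 2 ^ j) := Nat.mul_le_mul_left _ (by omega)
    _ = 2 * K * 2 ^ j := by ring
    _ ≤ _ := Nat.mul_le_mul_right _ hj

lemma exists_HdX {C u b Q t D A C₃ c C₂ u₂ b₂ Q₂ n : ℕ} (hn : 1 ≤ n)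
    (hQ : 5 ≤ Q) (hD : C + u + b ≤ D) (ht : 2 * D + 2 ≤ t) (hA : C + 1 + 2 * t ≤ 2 * A)
    (hC₃ : C₂ + u₂ + b₂ + 4 * A + 2 ≤ C₃) (hc : 2 * C₃ + 2 ≤ c) (hQ₂ : 3 * A + 5 ≤ Q₂)
    (hμ : u * n + b ≤ 2 ^ n) (hμ₂ : u₂ * n + b₂ ≤ 2 ^ n) :
    ∃ L : List Bool, L.length = 2 ^ ((C₂ + 1) * n) ∧
      HdX C u b Q t D A C₃ c C₂ u₂ b₂ Q₂ n L := by
  have hA1 : 1 ≤ A := by omega
  have hAn : n ≤ A * n := Nat.le_mul_of_pos_left _ hA1
  have htn : n ≤ t * n := Nat.le_mul_of_pos_left _ (by omega)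
  obtain ⟨hp, hp1, hp2⟩ := prm_spec (B := 2 ^ (t * n - 1)) (by positivity)
  have hC₃n : n ≤ C₃ * n := Nat.le_mul_of_pos_left _ (by omega)
  obtain ⟨hps, hps1, hps2⟩ := prm_spec (B := 2 ^ (C₃ * n - 1)) (by positivity)
  have e4 : 2 * 2 ^ (t * n - 1) = 2 ^ (t * n) := by
    rw [← pow_succ']
    congr 1
    omega
  have e5 : 2 * 2 ^ (C₃ * n - 1) = 2 ^ (C₃ * n) := by
    rw [← pow_succ']
    congr 1
    omega
  have hlen : 2 ^ (A * n) * 2 ^ (A * n) ≤ (desM c (2 * (C₃ * n)) (A * n)).length := by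
    have h0 : A * n ≤ C₃ * n := Nat.mul_le_mul_right _ (by omega)
    have h1 := le_length_desM (c := c) (l := 2 * (C₃ * n)) (ρ := A * n) (by omega)
    have h2 : 2 ^ (A * n) * 2 ^ (A * n) * 2 ^ (2 * (C₃ * n)) ≤ 2 ^ (c * (A * n + 1)) := by
      rw [← pow_add, ← pow_add]
      refine Nat.pow_le_pow_right (by norm_num) ?_
      calc A * n + A * n + 2 * (C₃ * n) ≤ (2 * C₃ + 2) * (A * n) := by
            have h3 : C₃ * n ≤ C₃ * (A * n) := Nat.mul_le_mul_left _ hAn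
            have e : (2 * C₃ + 2) * (A * n) = 2 * (C₃ * (A * n)) + 2 * (A * n) := by ring
            omega
        _ ≤ c * (A * n + 1) := Nat.mul_le_mul hc (by omega)
    exact Nat.le_of_mul_le_mul_right (h2.trans h1) (by positivity)
  have hDs : ∀ i < 2 ^ (A * n) * 2 ^ (A * n), ∀ k < 2 ^ (A * n) * 2 ^ (A * n), i ≠ k →
      agD c (2 * (C₃ * n)) ((desM c (2 * (C₃ * n)) (A * n)).getD i 0)
        ((desM c (2 * (C₃ * n)) (A * n)).getD k 0) ≤ A * n := fun i hi k hk hik =>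
    desM_pairwise c _ _ (lt_of_lt_of_le hi hlen) (lt_of_lt_of_le hk hlen) hik
  have hKle : 2 ^ (C * n) * 2 ^ n * 2 ^ (t * n) * 2 ^ (t * n) ≤ 2 ^ (A * n) * 2 ^ (A * n) := by
    rw [← pow_add, ← pow_add, ← pow_add, ← pow_add]
    refine Nat.pow_le_pow_right (by norm_num) ?_
    calc C * n + n + t * n + t * n = (C + 1 + 2 * t) * n := by ring
      _ ≤ (2 * A) * n := Nat.mul_le_mul_right _ hA
      _ = _ := by ring
  have hX := card_badX (n := n) (M := 2 ^ (C * n)) (μ := u * n + b) (J := 2 ^ n)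
    (P := 2 ^ (t * n)) (p := prm (2 ^ (t * n - 1))) (ℓ := 2 ^ (D * n)) (S := 2 ^ (Q * n))
    (K := 2 ^ (A * n) * 2 ^ (A * n)) hp (by omega) hμ Nat.one_le_two_pow ?_ ?_ ?_ hKle
  rotate_left
  · rw [← pow_add]
    refine Nat.pow_le_pow_right (by norm_num) ?_
    have hb : b ≤ b * n := Nat.le_mul_of_pos_right _ hn
    have e : (C + u + b) * n = C * n + u * n + b * n := by ring
    have h1 : (C + u + b) * n ≤ D * n := Nat.mul_le_mul_right _ hD
    omega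
  · refine le_trans ?_ hp1.le
    rw [← pow_add, ← pow_add]
    refine Nat.pow_le_pow_right (by norm_num) ?_
    have h1 : (2 * D + 2) * n ≤ t * n := Nat.mul_le_mul_right _ ht
    have h2 : (2 * D + 2) * n = D * n + D * n + n + n := by ring
    omega
  · calc 4 * (2 ^ n + 3) ≤ 2 ^ (5 * n) := by
          have h1 : 2 ^ (5 * n) = 2 ^ n * 2 ^ (4 * n) := by
            rw [← pow_add]
            congr 1
            ring
          have h2 : 2 ^ 4 ≤ 2 ^ (4 * n) := Nat.pow_le_pow_right (by norm_num) (by omega)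
          have h3 : 2 ^ 1 ≤ 2 ^ n := Nat.pow_le_pow_right (by norm_num) hn
          rw [h1]
          have h4 : 2 ^ n * 2 ^ 4 ≤ 2 ^ n * 2 ^ (4 * n) := Nat.mul_le_mul_left _ h2
          omega
      _ ≤ _ := Nat.pow_le_pow_right (by norm_num) (Nat.mul_le_mul_right _ hQ)
  have hz := exists_hardX (a := A * n) (K := 2 ^ (A * n) * 2 ^ (A * n))
    (μ := u₂ * n + b₂) (d := C₂ * n) (as := C₃ * n) (ps := prm (2 ^ (C₃ * n - 1))) (c := c)
    (l := 2 * (C₃ * n)) (ρ := A * n) (S := 2 ^ (Q₂ * n)) (k := 2 ^ (3 * (A * n) + 2) + 1)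
    (J := 2 ^ n) (desM c (2 * (C₃ * n)) (A * n))
    (BadX n (2 ^ (C * n)) (u * n + b) (2 ^ n) (2 ^ (t * n)) (prm (2 ^ (t * n - 1))) (2 ^ (D * n))
      (2 ^ (Q * n)))
    (fun g g' h => badX_congr hp.pos (by omega) hμ fun i hi => h i (lt_of_lt_of_le hi hKle))
    hX (by omega) rfl hps (by omega) (by omega) (by ring) ?_ hDs le_rfl le_rfl ?_ hμ₂
  rotate_left
  · have hb : b₂ ≤ b₂ * n := Nat.le_mul_of_pos_right _ hn
    have e : (C₂ + u₂ + b₂ + 4 * A + 2) * n = C₂ * n + u₂ * n + b₂ * n + 4 * (A * n) + 2 * n := by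
      ring
    have h1 : (C₂ + u₂ + b₂ + 4 * A + 2) * n ≤ C₃ * n := Nat.mul_le_mul_right _ hC₃
    omega
  · calc 4 * (2 ^ (3 * (A * n) + 2) + 1) ≤ 2 ^ (3 * (A * n) + 5) := by
          have h1 : 2 ^ (3 * (A * n) + 5) = 8 * 2 ^ (3 * (A * n) + 2) := by
            rw [show 3 * (A * n) + 5 = 3 * (A * n) + 2 + 3 by ring, pow_add 2 _ 3]
            ring
          have h2 : 1 ≤ 2 ^ (3 * (A * n) + 2) := Nat.one_le_two_pow
          omega
      _ ≤ 2 ^ (Q₂ * n) := by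
          refine Nat.pow_le_pow_right (by norm_num) ?_
          have e : (3 * A + 5) * n = 3 * (A * n) + 5 * n := by ring
          have h1 : (3 * A + 5) * n ≤ Q₂ * n := Nat.mul_le_mul_right _ hQ₂
          omega
  obtain ⟨L, hL, hL'⟩ := hz
  refine ⟨L, ?_, fun U hU hsig => ?_⟩
  · rw [hL, ← pow_add]
    congr 1
    ring
  · obtain ⟨s, hs, hbad⟩ := hL' U hU hsig
    refine ⟨s, hs, fun h => hbad ?_⟩
    unfold BadLX at h
    rw [badS_iff hμ] at h
    refine badX_congr hp.pos (by omega) hμ ?_ h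
    intro i hi
    have hi' : i < 2 ^ (2 * (A * n)) := by
      have h1 := lt_of_lt_of_le hi hKle
      rw [← pow_add] at h1
      rwa [show 2 * (A * n) = A * n + A * n by ring]
    unfold gL
    simp [List.getD, hi']

lemma bad_bridgeX (C u b Q t D A C₃ c : ℕ) : ∀ᶠ q in big ⊤,
    ∀ (B : List Bool) (s : ℕ), (BadXP C u b Q t D ((q.1, q.2), gT A C₃ c (((q.1, q.2), B), s)) ↔
      BadLX C u b Q t D A C₃ c q.1 B s) := by
  have h1 := eventually_le_two_pow ⊤ (c := c * (2 * C₃)) (fun n => c * (2 * (C₃ * n)))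
    (fun n => by nlinarith [Nat.zero_le (c * (2 * C₃))])
  have h2 := eventually_le_two_pow ⊤ (c := 2 * C₃ * 2 ^ c) (fun n => 2 * (C₃ * n) * 2 ^ c)
    (fun n => by nlinarith [Nat.zero_le (2 * C₃ * 2 ^ c)])
  have h3 := eventually_le_two_pow ⊤ (c := 2 * C₃) (fun n => 2 * (C₃ * n)) (fun n => by nlinarith)
  have h4 := eventually_le_two_pow ⊤ (c := 2 * A) (fun n => 2 * (A * n)) (fun n => by nlinarith)
  have h5 := eventually_two_pow_le ⊤ Q
  have h6 := eventually_two_pow_le ⊤ 1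
  have h7 := eventually_two_pow_le ⊤ C
  have h8 := eventually_two_pow_le ⊤ t
  have h9 := eventually_two_pow_le ⊤ D
  have h10 := eventually_le_two_pow ⊤ (c := u + b + C) (fun n => u * n + b + C * n)
    (fun n => by nlinarith)
  filter_upwards [h1, h2, h3, h4, h5, h6, h7, h8, h9, h10]
    with q h1 h2 h3 h4 h5 h6 h7 h8 h9 h10 B s
  rw [one_mul] at h6
  have h11 : 2 ^ (u * q.1 + b) ≤ q.2 :=
    le_trans (Nat.pow_le_pow_right (by norm_num) (by omega)) h10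
  rw [pow_add] at h10
  rw [gT_eq h1 h2 h3 h4, badXP_iff h7 h6 h11 h5 h8 h9 h10]
  rfl

lemma HdXP_iff (C u b Q t D A C₃ c C₂ u₂ b₂ Q₂ : ℕ) : ∀ᶠ q in big ⊤, ∀ L : List Bool,
    L.length = 2 ^ ((C₂ + 1) * q.1) → (HdXP C u b Q t D A C₃ c C₂ u₂ b₂ Q₂ ((q.1, q.2), L) ↔
      HdX C u b Q t D A C₃ c C₂ u₂ b₂ Q₂ q.1 L) := by
  have h2 := eventually_le_two_pow ⊤ (c := 2 * C₃ * 2 ^ c) (fun n => 2 * (C₃ * n) * 2 ^ c)
    (fun n => by nlinarith [Nat.zero_le (2 * C₃ * 2 ^ c)])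
  have h3 := eventually_two_pow_le ⊤ C₂
  have h4 := eventually_two_pow_le ⊤ 1
  have h5 := eventually_le_two_pow ⊤ (c := u₂ + b₂) (fun n => u₂ * n + b₂)
    (fun n => by nlinarith)
  have h6 := eventually_two_pow_le ⊤ Q₂
  have h7 := eventually_le_two_pow ⊤ (c := C₂ + u₂ + b₂) (fun n => C₂ * n + (u₂ * n + b₂))
    (fun n => by nlinarith)
  filter_upwards [bad_bridgeX C u b Q t D A C₃ c, h2, h3, h4, h5, h6, h7]
    with q h1 h2 h3 h4 h5 h6 h7 L _
  rw [one_mul] at h4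
  unfold HdXP HdX
  simp only
  rw [powB_eq h2, powB_eq h7]
  simp only [h1, List.mem_range, sgT_iff h3 h4 h5 h6]
  constructor
  · intro h U hU hsig
    refine h U ?_ ⟨hU, hsig⟩
    have := sz_bits_le U
    omega
  · rintro h U - ⟨hU, hsig⟩
    exact h U hU hsig

theorem nen_of_tests {C u b e C₂ u₂ b₂ e₂ Q₂ t D A : ℕ} (hC : 1 ≤ C) (hC₂ : 1 ≤ C₂)
    (hD : D = C + u + b) (ht : t = 2 * D + 2) (hA : A = C + 1 + 2 * t) (hQ₂ : Q₂ = 3 * A + 5)
    (H : TestH C u b e 5) (H₂ : TestH C₂ u₂ b₂ e₂ Q₂) (Hm : MajH) {R : ℕ → ℕ → Prop}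
    (hR : ESn R) : NEn R := by
  classical
  obtain ⟨C₃, hC₃⟩ : ∃ C₃, C₃ = C₂ + u₂ + b₂ + 4 * A + 2 := ⟨_, rfl⟩
  obtain ⟨c, hc⟩ : ∃ c, c = 2 * C₃ + 2 := ⟨_, rfl⟩
  -- the hard word
  set LH : ℕ → List Bool := leastL (C₂ + 1) (HdX C u b 5 t D A C₃ c C₂ u₂ b₂ Q₂) with hLH
  have hLHe : ESf LH := esf_leastL (psp_HdXP C u b 5 t D A C₃ c C₂ u₂ b₂ Q₂)
    (HdXP_iff C u b 5 t D A C₃ c C₂ u₂ b₂ Q₂)
  have hmu : ∀ᶠ n in pows, u * n + b ≤ 2 ^ n := by
    filter_upwards [eventually_pows_two_pow_ge (u + b)] with n hn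
    nlinarith
  have hmu₂ : ∀ᶠ n in pows, u₂ * n + b₂ ≤ 2 ^ n := by
    filter_upwards [eventually_pows_two_pow_ge (u₂ + b₂)] with n hn
    nlinarith
  have hLHs : ∀ᶠ n in pows, HdX C u b 5 t D A C₃ c C₂ u₂ b₂ Q₂ n (LH n) := by
    filter_upwards [eventually_pows_ge 1, hmu, hmu₂] with n hn hn2 hn3
    exact (leastL_spec (exists_HdX hn le_rfl hD.ge ht.ge (by omega) hC₃.ge hc.ge hQ₂.ge
      hn2 hn3)).2.1
  obtain ⟨B, hBe, hBn, hBs⟩ := getTest hC₂ H₂ Hm hLHe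
  -- the seed
  have hBd : ESf fun n => 2 ^ (2 * (C₃ * n) * 2 ^ c) := by
    refine esf_of_ptime (G := fun q : ℕ × ℕ => powB q.2 (2 * (C₃ * q.1) * 2 ^ c)) (by fun_prop) ?_
    have h2 := eventually_le_two_pow ⊤ (c := 2 * C₃ * 2 ^ c) (fun n => 2 * (C₃ * n) * 2 ^ c)
      (fun n => by nlinarith [Nat.zero_le (2 * C₃ * 2 ^ c)])
    filter_upwards [h2] with q hq
    exact powB_eq hq
  set sd : ℕ → ℕ := leastN (fun n => 2 ^ (2 * (C₃ * n) * 2 ^ c))
    (fun n s => ¬ BadLX C u b 5 t D A C₃ c n (B n) s) with hsd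
  have hsde : ESf sd := by
    refine esf_least hBe (fun n => by positivity) hBd
      (Gd := fun x => ¬ BadXP C u b 5 t D ((x.1.1, x.1.2.2),
        gT A C₃ c (((x.1.1, x.1.2.2), x.1.2.1), x.2))) (PSp.not ?_) ?_
    · refine (psp_badXP C u b 5 t D).comp (g := fun x : (ℕ × List Bool × ℕ) × ℕ =>
        ((x.1.1, x.1.2.2), gT A C₃ c (((x.1.1, x.1.2.2), x.1.2.1), x.2))) ?_
      exact PTime.pair (by fun_prop) ((ptime_gT A C₃ c).comp
        (f := fun x : (ℕ × List Bool × ℕ) × ℕ =>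
          (((x.1.1, x.1.2.2), x.1.2.1), x.2)) (by fun_prop))
    · filter_upwards [bad_bridgeX C u b 5 t D A C₃ c] with q h1 s _
      exact not_congr (h1 _ _)
  have hsdn : NEf sd := by
    refine nef_of_esf Hm hsde (K := 2 * C₃ * 2 ^ c)
      (Nat.mul_pos (by omega) (by positivity)) (Eventually.of_forall fun n => ?_)
    have h1 := leastN_lt (B := fun n => 2 ^ (2 * (C₃ * n) * 2 ^ c))
      (Gd := fun n s => ¬ BadLX C u b 5 t D A C₃ c n (B n) s) (n := n) (by positivity)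
    rwa [show 2 * C₃ * 2 ^ c * n = 2 * (C₃ * n) * 2 ^ c by ring]
  -- the random string
  set F : ℕ → List Bool := fun n => gL A C₃ c n (B n) (sd n) with hF
  have hG : PTime fun x : ℕ × (List Bool × ℕ) × ℕ =>
      gT A C₃ c (((x.1, x.2.2), x.2.1.1), x.2.1.2) :=
    (ptime_gT A C₃ c).comp (f := fun x : ℕ × (List Bool × ℕ) × ℕ =>
      (((x.1, x.2.2), x.2.1.1), x.2.1.2)) (by fun_prop)
  have hGF : ∀ᶠ q in big ⊤, gT A C₃ c (((q.1, q.2), B q.1), sd q.1) = F q.1 := by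
    have h1 := eventually_le_two_pow ⊤ (c := c * (2 * C₃)) (fun n => c * (2 * (C₃ * n)))
      (fun n => by nlinarith [Nat.zero_le (c * (2 * C₃))])
    have h2 := eventually_le_two_pow ⊤ (c := 2 * C₃ * 2 ^ c) (fun n => 2 * (C₃ * n) * 2 ^ c)
      (fun n => by nlinarith [Nat.zero_le (2 * C₃ * 2 ^ c)])
    have h3 := eventually_le_two_pow ⊤ (c := 2 * C₃) (fun n => 2 * (C₃ * n))
      (fun n => by nlinarith)
    have h4 := eventually_le_two_pow ⊤ (c := 2 * A) (fun n => 2 * (A * n)) (fun n => by nlinarith)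
    filter_upwards [h1, h2, h3, h4] with q h1 h2 h3 h4
    rw [gT_eq h1 h2 h3 h4]
    rfl
  have hFe : ESf F := (hBe.prod hsde).map hG hGF
  have hFn : NEf F := (hBn.prod hsdn).map hG (hGF.filter_mono (big_le_top _))
  have hgood : ∀ᶠ n in pows, ¬ BadLX C u b 5 t D A C₃ c n (B n) (sd n) := by
    filter_upwards [hLHs, hBs] with n h1 h2
    obtain ⟨s, hs, hbad⟩ := h1 _ h2.1 h2.2
    exact (leastN_spec (B := fun n => 2 ^ (2 * (C₃ * n) * 2 ^ c))
      (Gd := fun n s => ¬ BadLX C u b 5 t D A C₃ c n (B n) s) ⟨s, hs, hbad⟩).2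
  -- the code words
  refine nen_of_nef_tab ?_
  have hT0 := esn_padR hR
  have hTe : ESf fun n => tab (padR R) n := by
    have := esf_tab hT0 1
    simpa using this
  have hb0 := eventually_two_pow_le ⊤ C
  have hb1 := eventually_two_pow_le ⊤ 1
  have hb2 := eventually_two_pow_le ⊤ t
  have hb3 := eventually_le_two_pow ⊤ (c := u + b) (fun n => u * n + b) (fun n => by nlinarith)
  have hb4 := eventually_two_pow_le ⊤ 5
  have hGc : PTime fun x : ℕ × (List Bool × List Bool) × ℕ =>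
      ecT C t ((x.1, x.2.2), (x.2.1.1, x.2.1.2)) :=
    (ptime_ecT C t).comp (f := fun x : ℕ × (List Bool × List Bool) × ℕ =>
      ((x.1, x.2.2), (x.2.1.1, x.2.1.2))) (by fun_prop)
  have hCe : ESf fun n => ecl C t n (F n) (tab (padR R) n) := by
    refine (hFe.prod hTe).map hGc ?_
    filter_upwards [hb0, hb1, hb2] with q h0 h1 h2
    rw [one_mul] at h1
    exact ecT_eq h0 h1 h2 _ _
  obtain ⟨U, hUe, hUn, hUs⟩ := getTest hC H Hm hCe
  refine nef_sep hT0 Hm (W := fun n => (F n, U n)) (hFe.prod hUe) (hFn.prod hUn)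
    (Cl := fun n T => Sig (2 ^ (C * n)) (2 ^ (u * n + b)) (2 ^ (5 * n))
      (wd (2 ^ n) (u * n + b) (ecl C t n (F n) T)) (fun i => (U n).getD i false))
    (V := fun x => sgT C u b 5 ((x.1.1, x.1.2.2),
      (ecT C t ((x.1.1, x.1.2.2), (x.1.2.1.1, x.2)), x.1.2.1.2))) ?_ ?_ D ?_ ?_
  · have h1 : PTime fun x : (ℕ × (List Bool × List Bool) × ℕ) × List Bool =>
        ecT C t ((x.1.1, x.1.2.2), (x.1.2.1.1, x.2)) := (ptime_ecT C t).comp (by fun_prop)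
    exact (ptime_sgT C u b 5).comp (f := fun x : (ℕ × (List Bool × List Bool) × ℕ) × List Bool =>
      ((x.1.1, x.1.2.2), (ecT C t ((x.1.1, x.1.2.2), (x.1.2.1.1, x.2)), x.1.2.1.2)))
      (PTime.pair (by fun_prop) (PTime.pair h1 (by fun_prop)))
  · filter_upwards [hb0, hb1, hb2, hb3, hb4] with q h0 h1 h2 h3 h4 T hT
    rw [one_mul] at h1
    rw [ecT_eq h0 h1 h2, sgT_iff h0 h1 h3 h4]
  · filter_upwards [hgood] with n h1 Λ hΛ
    by_contra hno
    push Not at hno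
    obtain ⟨Λ', hΛ', hcard⟩ := Finset.exists_subset_card_eq hno.le
    exact h1 ⟨_, Λ', hcard, fun T hT => hΛ T (hΛ' hT)⟩
  · filter_upwards [hUs] with n h1
    exact h1.2

end Pool.Agent.H64.NE
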