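import Pool.Agent.H64.NE.TComp

/-!
# Certified tests
-/

namespace Pool.Agent.H64.NE

open Pool.Agent.H48.NE
open TMLib Polynomial Filter

set_option maxHeartbeats 1000000

/-- Every exponential space family of words at scale `C n`, with symbols of `u n + b` bits, has
significant tests in nondeterministic exponential time with `e C n` bits of advice. -/
def TestH (C u b e Q : ℕ) : Prop := ∀ Fw : ℕ → List Bool, ESf Fw → ∃ S : ℕ → ℕ → Prop, NEn S ∧
  ∃ n₀, ∀ n ≥ n₀, ∃ α < 2 ^ (e * (C * n)), ∀ U : ℕ → Bool,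
    (∀ i < 2 ^ (u * n + b) * 2 ^ (C * n), (U i = true ↔
      S (e * (C * n) + (C * n + (u * n + b))) (α + 2 ^ (e * (C * n)) * i))) →
    Sig (2 ^ (C * n)) (2 ^ (u * n + b)) (2 ^ (Q * n)) (wd (2 ^ n) (u * n + b) (Fw n)) U

/-- Rescaling of a predicate. -/
def scl (e C u b D : ℕ) (S : ℕ → ℕ → Prop) (m k : ℕ) : Prop :=
  ∃ n, m = D * n ∧ k < 2 ^ (e * (C * n) + (C * n + (u * n + b))) ∧
    S (e * (C * n) + (C * n + (u * n + b))) k

lemma nen_scl {e C u b D : ℕ} (hD : e * C + C + u + b ≤ D) (hC : 1 ≤ C) {S : ℕ → ℕ → Prop}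
    (hS : NEn S) : NEn (scl e C u b D S) := by
  obtain ⟨c, P, hP, h⟩ := hS
  refine ⟨(c + 1) * (D + 1), fun q => ∃ n ∈ List.range (q.1 + 1), q.1 = D * n ∧
    (q.2.1 < powB q.2.2 (e * (C * n) + (C * n + (u * n + b))) ∧
      P (e * (C * n) + (C * n + (u * n + b)), q.2.1, q.2.2)), ?_, ?_⟩
  · refine NPp.exists_mem (R := fun (q : ℕ × ℕ × ℕ) n => q.1 = D * n ∧
      (q.2.1 < powB q.2.2 (e * (C * n) + (C * n + (u * n + b))) ∧
      P (e * (C * n) + (C * n + (u * n + b)), q.2.1, q.2.2))) ?_ (by fun_prop)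
    refine NPp.and (NPp.of_ptime (by fun_prop)) (NPp.and (NPp.of_ptime (by fun_prop)) ?_)
    exact hP.comp (g := fun x : (ℕ × ℕ × ℕ) × ℕ =>
      (e * (C * x.2) + (C * x.2 + (u * x.2 + b)), x.1.2.1, x.1.2.2)) (by fun_prop)
  · intro m k N hk hN
    have hDn : ∀ n, n ≤ D * n := fun n => Nat.le_mul_of_pos_left _ (by omega)
    have hl : ∀ n, n ≤ m → e * (C * n) + (C * n + (u * n + b)) ≤ D * (m + 1) := by
      intro n hn
      have h1 : e * (C * n) + (C * n + (u * n + b)) = (e * C + C + u) * n + b := by ring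
      have h2 : (e * C + C + u) * n + b ≤ (e * C + C + u + b) * (n + 1) := by
        have h3 : (e * C + C + u + b) * (n + 1) =
          (e * C + C + u) * n + b + (b * n + (e * C + C + u)) := by ring
        omega
      rw [h1]
      exact h2.trans (Nat.mul_le_mul hD (by omega))
    have hN1 : ∀ n, n ≤ m → 2 ^ (c * (e * (C * n) + (C * n + (u * n + b)) + 1)) ≤ N := by
      intro n hn
      refine le_trans (Nat.pow_le_pow_right (by norm_num) ?_) hN
      have h1 := hl n hn
      calc c * (e * (C * n) + (C * n + (u * n + b)) + 1) ≤ c * (D * (m + 1) + (m + 1)) :=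
            Nat.mul_le_mul_left _ (by omega)
        _ = c * (D + 1) * (m + 1) := by ring
        _ ≤ (c + 1) * (D + 1) * (m + 1) := by
            refine Nat.mul_le_mul_right _ (Nat.mul_le_mul_right _ (by omega))
    have hN2 : ∀ n, n ≤ m → 2 ^ (e * (C * n) + (C * n + (u * n + b))) ≤ N := by
      intro n hn
      refine le_trans (Nat.pow_le_pow_right (by norm_num) ?_) hN
      have h1 := hl n hn
      calc e * (C * n) + (C * n + (u * n + b)) ≤ 1 * (D * (m + 1) + (m + 1)) := by omega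
        _ ≤ (c + 1) * (D * (m + 1) + (m + 1)) := Nat.mul_le_mul_right _ (by omega)
        _ = (c + 1) * (D + 1) * (m + 1) := by ring
    unfold scl
    simp only
    constructor
    · rintro ⟨n, hn, h1, h2, h3⟩
      rw [List.mem_range] at hn
      rw [powB_eq (hN2 n (by omega))] at h2
      exact ⟨n, h1, h2, (h _ _ _ h2 (hN1 n (by omega))).1 h3⟩
    · rintro ⟨n, h1, h2, h3⟩
      have hn : n ≤ m := by rw [h1]; exact hDn n
      refine ⟨n, List.mem_range.2 (by omega), h1, ?_, (h _ _ _ h2 (hN1 n hn)).2 h3⟩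
      rw [powB_eq (hN2 n hn)]
      exact h2

/-- The test with given advice, as a list of bits. -/
def tst (e C u b n : ℕ) (W : List Bool) (α : ℕ) : List Bool :=
  (List.range (2 ^ (u * n + b) * 2 ^ (C * n))).map fun i =>
    W.getD (α + 2 ^ (e * (C * n)) * i) false

/-- Computable form. -/
def tsT (e C u b : ℕ) (x : (ℕ × ℕ) × (List Bool × ℕ)) : List Bool :=
  (List.range (powB x.1.2 (u * x.1.1 + b) * powB x.1.2 (C * x.1.1))).map fun i =>
    x.2.1.getD (x.2.2 + powB x.1.2 (e * (C * x.1.1)) * i) false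

lemma ptime_tsT (e C u b : ℕ) : PTime (tsT e C u b) := by
  unfold tsT
  exact PTime.map (g := fun (x : (ℕ × ℕ) × (List Bool × ℕ)) i =>
    x.2.1.getD (x.2.2 + powB x.1.2 (e * (C * x.1.1)) * i) false) (by fun_prop)
    (PTime.listGetD (by fun_prop) (by fun_prop) (by fun_prop))

lemma tsT_eq {e C u b n N : ℕ} (h0 : 2 ^ (C * n) ≤ N) (h1 : 2 ^ (u * n + b) ≤ N)
    (h2 : 2 ^ (e * (C * n)) ≤ N) (W : List Bool) (α : ℕ) :
    tsT e C u b ((n, N), (W, α)) = tst e C u b n W α := by
  unfold tsT tst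
  simp only
  rw [powB_eq h0, powB_eq h1, powB_eq h2]

/-- From tests to certified tests. -/
theorem getTest {C u b e Q : ℕ} (hC : 1 ≤ C) (H : TestH C u b e Q) (Hm : MajH)
    {Fw : ℕ → List Bool} (hFw : ESf Fw) : ∃ U : ℕ → List Bool, ESf U ∧ NEf U ∧
    ∀ᶠ n in pows, (U n).length = 2 ^ (C * n + (u * n + b)) ∧
      Sig (2 ^ (C * n)) (2 ^ (u * n + b)) (2 ^ (Q * n)) (wd (2 ^ n) (u * n + b) (Fw n))
        (fun i => (U n).getD i false) := by
  classical
  obtain ⟨S, hS, n₀, hn₀⟩ := H Fw hFw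
  obtain ⟨D, hD⟩ : ∃ D, D = e * C + C + u + b := ⟨_, rfl⟩
  have hS' := nen_scl hD.ge hC hS
  have hSe' := esn_of_nen hS'
  set W : ℕ → List Bool := fun n => tab (scl e C u b D S) (D * n) with hWdef
  have hWe : ESf W := esf_tab hSe' D
  have hWn : NEf W := nef_tab Hm hS' hSe' (by omega)
  have hW : ∀ n ≥ 1, ∀ k < 2 ^ (e * (C * n) + (C * n + (u * n + b))), ((W n).getD k false = true ↔
      S (e * (C * n) + (C * n + (u * n + b))) k) := by
    intro n hn k hk
    have hle : e * (C * n) + (C * n + (u * n + b)) ≤ D * n := by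
      rw [hD]
      nlinarith
    rw [hWdef]
    simp only
    rw [getD_tab (lt_of_lt_of_le hk (Nat.pow_le_pow_right (by norm_num) hle))]
    unfold scl
    constructor
    · rintro ⟨n', h1, -, h2⟩
      have h3 : n = n' := Nat.eq_of_mul_eq_mul_left (by omega) h1
      subst h3
      exact h2
    · intro h
      exact ⟨n, rfl, hk, h⟩
  let Gd : ℕ → ℕ → Prop := fun n α => Sig (2 ^ (C * n)) (2 ^ (u * n + b)) (2 ^ (Q * n))
    (wd (2 ^ n) (u * n + b) (Fw n)) (fun i => (tst e C u b n (W n) α).getD i false)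
  have hb1 := eventually_two_pow_le ⊤ C
  have hb2 := eventually_two_pow_le ⊤ 1
  have hb3 := eventually_le_two_pow ⊤ (c := u + b) (fun n => u * n + b) (fun n => by nlinarith)
  have hb4 := eventually_two_pow_le ⊤ Q
  have hb5 := eventually_le_two_pow ⊤ (c := e * C) (fun n => e * (C * n)) (fun n => by nlinarith)
  have hBd : ESf fun n => 2 ^ (e * (C * n)) := by
    refine esf_of_ptime (G := fun q : ℕ × ℕ => powB q.2 (e * (C * q.1))) (by fun_prop) ?_
    filter_upwards [hb5] with q hq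
    exact powB_eq hq
  set αs : ℕ → ℕ := leastN (fun n => 2 ^ (e * (C * n))) Gd with hαs
  have hαe : ESf αs := by
    refine esf_least (W := fun n => (Fw n, W n)) (hFw.prod hWe) (fun n => by positivity) hBd
      (Gd := fun x => sgT C u b Q ((x.1.1, x.1.2.2), (x.1.2.1.1,
        tsT e C u b ((x.1.1, x.1.2.2), (x.1.2.1.2, x.2)))) = true) (PSp.of_ptime ?_) ?_
    · have h1 : PTime fun x : (ℕ × (List Bool × List Bool) × ℕ) × ℕ =>
          tsT e C u b ((x.1.1, x.1.2.2), (x.1.2.1.2, x.2)) :=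
        (ptime_tsT e C u b).comp (by fun_prop)
      exact PTime.decide_true' ((ptime_sgT C u b Q).comp
        (f := fun x : (ℕ × (List Bool × List Bool) × ℕ) × ℕ => ((x.1.1, x.1.2.2), (x.1.2.1.1,
          tsT e C u b ((x.1.1, x.1.2.2), (x.1.2.1.2, x.2)))))
        (PTime.pair (by fun_prop) (PTime.pair (by fun_prop) h1)))
    · filter_upwards [hb1, hb2, hb3, hb4, hb5] with q h1 h2 h3 h4 h5 α _
      rw [one_mul] at h2
      rw [tsT_eq h1 h3 h5, sgT_iff h1 h2 h3 h4]
  have hαn : NEf αs := by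
    refine nef_of_esf Hm hαe (K := e * C + 1) (by omega) (Eventually.of_forall fun n => ?_)
    have h1 := leastN_lt (B := fun n => 2 ^ (e * (C * n))) (Gd := Gd) (n := n) (by positivity)
    refine lt_of_lt_of_le h1 (Nat.pow_le_pow_right (by norm_num) ?_)
    calc e * (C * n) = e * C * n := by ring
      _ ≤ _ := Nat.mul_le_mul_right _ (by omega)
  have hG : PTime fun x : ℕ × (List Bool × ℕ) × ℕ => tsT e C u b ((x.1, x.2.2), x.2.1) :=
    (ptime_tsT e C u b).comp (f := fun x : ℕ × (List Bool × ℕ) × ℕ => ((x.1, x.2.2), x.2.1))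
      (by fun_prop)
  have hGF : ∀ᶠ q in big ⊤, tsT e C u b ((q.1, q.2), (W q.1, αs q.1)) =
      tst e C u b q.1 (W q.1) (αs q.1) := by
    filter_upwards [hb1, hb3, hb5] with q h1 h3 h5
    exact tsT_eq h1 h3 h5 _ _
  refine ⟨fun n => tst e C u b n (W n) (αs n), (hWe.prod hαe).map hG hGF,
    (hWn.prod hαn).map hG (hGF.filter_mono (big_le_top _)), ?_⟩
  filter_upwards [eventually_pows_ge n₀, eventually_pows_ge 1] with n h1 h2
  refine ⟨?_, ?_⟩
  · unfold tst
    rw [List.length_map, List.length_range, ← pow_add, Nat.add_comm (u * n + b)]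
  · obtain ⟨α, hα, hsig⟩ := hn₀ n h1
    have hgd : Gd n α := by
      refine hsig _ fun i hi => ?_
      have e1 : (tst e C u b n (W n) α).getD i false =
          (W n).getD (α + 2 ^ (e * (C * n)) * i) false := by
        unfold tst
        simp [List.getD, hi]
      rw [e1]
      refine hW n h2 _ ?_
      calc α + 2 ^ (e * (C * n)) * i < 2 ^ (e * (C * n)) + 2 ^ (e * (C * n)) * i := by omega
        _ = 2 ^ (e * (C * n)) * (i + 1) := by ring
        _ ≤ 2 ^ (e * (C * n)) * (2 ^ (u * n + b) * 2 ^ (C * n)) := Nat.mul_le_mul_left _ hi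
        _ = _ := by rw [← pow_add, ← pow_add]; congr 1; ring
    exact (leastN_spec (B := fun n => 2 ^ (e * (C * n))) (Gd := Gd) ⟨α, hα, hgd⟩).2

end Pool.Agent.H64.NE
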