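import Pool.Agent.H64.NE.Chern
import Pool.Agent.H48.NE.RandCode

/-!
# Codewords of distinct messages are independent and uniform
-/

namespace Pool.Agent.H64.NE

open Pool.Agent.H48.NE

set_option maxHeartbeats 1000000

open Classical in
/-- A map which can be shifted by arbitrary vectors is uniform. -/
theorem uniform {I L A : Type} [Fintype I] [Fintype L] [Fintype A]
    (E : (I → Bool) → L → A → Bool) (act : (L → A → Bool) → (I → Bool) → (I → Bool))
    (hact : ∀ δ, Function.Involutive (act δ))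
    (hE : ∀ δ r i a, E (act δ r) i a = xor (E r i a) (δ i a)) (𝓑 : Finset (L → A → Bool))
    (𝓕 : Finset (I → Bool)) (h𝓕 : ∀ r, r ∈ 𝓕 ↔ E r ∈ 𝓑) :
    𝓕.card * 2 ^ (Fintype.card A * Fintype.card L) = 𝓑.card * 2 ^ Fintype.card I := by
  have c1 : (Finset.univ : Finset (L → A → Bool)).card =
      2 ^ (Fintype.card A * Fintype.card L) := by
    rw [Finset.card_univ, Fintype.card_fun, Fintype.card_fun, Fintype.card_bool, ← pow_mul]
  have c2 : (Finset.univ : Finset (I → Bool)).card = 2 ^ Fintype.card I := by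
    rw [Finset.card_univ, Fintype.card_fun, Fintype.card_bool]
  rw [← c1, ← c2]
  have h0 : 𝓕 = (Finset.univ : Finset (I → Bool)).filter fun r => E r ∈ 𝓑 := by
    ext r
    rw [h𝓕, Finset.mem_filter]
    exact ⟨fun h => ⟨Finset.mem_univ _, h⟩, fun h => h.2⟩
  rw [h0]
  have h1 : ∀ δ : L → A → Bool,
      ((Finset.univ : Finset (I → Bool)).filter fun r => E r ∈ 𝓑).card =
        ((Finset.univ : Finset (I → Bool)).filter fun r => E (act δ r) ∈ 𝓑).card := by
    intro δ
    refine Finset.card_bij (fun r _ => act δ r) ?_ ?_ ?_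
    · intro r hr
      rw [Finset.mem_filter] at hr ⊢
      refine ⟨Finset.mem_univ _, ?_⟩
      rw [hact δ r]
      exact hr.2
    · intro r _ r' _ h
      exact (hact δ).injective h
    · intro r hr
      rw [Finset.mem_filter] at hr
      exact ⟨act δ r, Finset.mem_filter.2 ⟨Finset.mem_univ _, hr.2⟩, hact δ r⟩
  have h2 : ∀ r : I → Bool,
      ((Finset.univ : Finset (L → A → Bool)).filter fun δ => E (act δ r) ∈ 𝓑).card = 𝓑.card := by
    intro r
    refine Finset.card_bij (fun δ _ => E (act δ r)) ?_ ?_ ?_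
    · intro δ hδ
      exact (Finset.mem_filter.1 hδ).2
    · intro δ _ δ' _ h
      funext i a
      have h3 := congrFun (congrFun h i) a
      rw [hE, hE] at h3
      revert h3
      cases E r i a <;> cases δ i a <;> cases δ' i a <;> simp
    · intro y hy
      refine ⟨fun i a => xor (E r i a) (y i a), ?_, ?_⟩
      · rw [Finset.mem_filter]
        refine ⟨Finset.mem_univ _, ?_⟩
        have : E (act (fun i a => xor (E r i a) (y i a)) r) = y := by
          funext i a
          rw [hE, ← Bool.xor_assoc, Bool.xor_self, Bool.false_xor]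
        rw [this]
        exact hy
      · funext i a
        rw [hE, ← Bool.xor_assoc, Bool.xor_self, Bool.false_xor]
  calc ((Finset.univ : Finset (I → Bool)).filter fun r => E r ∈ 𝓑).card *
      (Finset.univ : Finset (L → A → Bool)).card =
      ∑ δ : L → A → Bool,
        ((Finset.univ : Finset (I → Bool)).filter fun r => E (act δ r) ∈ 𝓑).card := by
        rw [Finset.sum_congr rfl fun δ _ => (h1 δ).symm, Finset.sum_const, smul_eq_mul,
          Nat.mul_comm]
    _ = ∑ δ : L → A → Bool, ∑ r : I → Bool, if E (act δ r) ∈ 𝓑 then 1 else 0 := by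
        refine Finset.sum_congr rfl fun δ _ => ?_
        rw [Finset.card_filter]
    _ = ∑ r : I → Bool, ∑ δ : L → A → Bool, if E (act δ r) ∈ 𝓑 then 1 else 0 := Finset.sum_comm
    _ = ∑ r : I → Bool, 𝓑.card := by
        refine Finset.sum_congr rfl fun r _ => ?_
        rw [← Finset.card_filter, h2 r]
    _ = _ := by rw [Finset.sum_const, smul_eq_mul, Nat.mul_comm]

/-! ### The code -/

/-- The position in the random string used at the point `x` with value `v`, for bit `j` of the
symbol at position `z`. -/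
def idx (J P z j x v : ℕ) : ℕ := ((z * J + j) * P + x) * P + v

/-- Bit `j` of the symbol at position `z` of the codeword of `T`. -/
def ebit (J P p : ℕ) (r : ℕ → Bool) (T : List Bool) (z j : ℕ) : Bool :=
  decide ((∑ x ∈ Finset.range p, (r (idx J P z j x (hv T x p))).toNat) % 2 = 1)

/-- The symbol at position `z` of the codeword of `T`. -/
def ecw (μ J P p : ℕ) (r : ℕ → Bool) (T : List Bool) (z : ℕ) : ℕ :=
  val ((List.range μ).map fun j => ebit J P p r T z j)

lemma idx_lt {M J P z j x v : ℕ} (hz : z < M) (hj : j < J) (hx : x < P) (hv : v < P) :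
    idx J P z j x v < M * J * P * P := by
  unfold idx
  have h1 : z * J + j < M * J := by
    calc z * J + j < z * J + J := by omega
      _ = (z + 1) * J := by ring
      _ ≤ _ := Nat.mul_le_mul_right _ hz
  have h2 : (z * J + j) * P + x < M * J * P := by
    calc (z * J + j) * P + x < (z * J + j) * P + P := by omega
      _ = (z * J + j + 1) * P := by ring
      _ ≤ _ := Nat.mul_le_mul_right _ h1
  calc ((z * J + j) * P + x) * P + v < ((z * J + j) * P + x) * P + P := by omega
    _ = ((z * J + j) * P + x + 1) * P := by ring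
    _ ≤ _ := Nat.mul_le_mul_right _ h2

lemma divmod_inj {P a b a' b' : ℕ} (hb : b < P) (hb' : b' < P) (h : a * P + b = a' * P + b') :
    a = a' ∧ b = b' := by
  have h1 : (a * P + b) / P = a := by
    rw [Nat.add_comm, Nat.add_mul_div_right _ _ (by omega), Nat.div_eq_of_lt hb, zero_add]
  have h2 : (a' * P + b') / P = a' := by
    rw [Nat.add_comm, Nat.add_mul_div_right _ _ (by omega), Nat.div_eq_of_lt hb', zero_add]
  have h3 : a = a' := by rw [← h1, ← h2, h]
  subst h3
  exact ⟨rfl, by omega⟩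

lemma idx_inj {J P z j x v z' j' x' v' : ℕ} (hj : j < J) (hx : x < P) (hv : v < P)
    (hj' : j' < J) (hx' : x' < P) (hv' : v' < P)
    (h : idx J P z j x v = idx J P z' j' x' v') : z = z' ∧ j = j' ∧ x = x' ∧ v = v' := by
  unfold idx at h
  obtain ⟨h1, h2⟩ := divmod_inj hv hv' h
  obtain ⟨h3, h4⟩ := divmod_inj hx hx' h1
  obtain ⟨h5, h6⟩ := divmod_inj hj hj' h3
  exact ⟨h5, h6, h4, h2⟩

/-- Some point separates all the messages of a small family. -/
lemma exists_sep {n p ℓ : ℕ} (hp : p.Prime) (Λ : Finset (List Bool)) (hΛ : Λ.card = ℓ)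
    (hlen : ∀ T ∈ Λ, T.length = 2 ^ n) (hℓ : ℓ * ℓ * 2 ^ n ≤ p) :
    ∃ x < p, ∀ T ∈ Λ, ∀ T' ∈ Λ, hv T x p = hv T' x p → T = T' := by
  classical
  by_contra hno
  push Not at hno
  have hcover : Finset.range p ⊆ (Λ ×ˢ Λ).biUnion fun q =>
      if q.1 = q.2 then ∅ else (Finset.range p).filter fun x => hv q.1 x p = hv q.2 x p := by
    intro x hx
    obtain ⟨T, hT, T', hT', h1, h2⟩ := hno x (Finset.mem_range.1 hx)
    rw [Finset.mem_biUnion]
    refine ⟨(T, T'), Finset.mem_product.2 ⟨hT, hT'⟩, ?_⟩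
    rw [if_neg h2, Finset.mem_filter]
    exact ⟨hx, h1⟩
  have h1 : p ≤ ∑ q ∈ Λ ×ˢ Λ, (if q.1 = q.2 then (∅ : Finset ℕ) else
      (Finset.range p).filter fun x => hv q.1 x p = hv q.2 x p).card := by
    have := (Finset.card_le_card hcover).trans Finset.card_biUnion_le
    rwa [Finset.card_range] at this
  rcases Λ.eq_empty_or_nonempty with h0 | h0
  · rw [h0] at h1
    simp at h1
    exact hp.ne_zero h1
  have h2 : ∑ q ∈ Λ ×ˢ Λ, (if q.1 = q.2 then (∅ : Finset ℕ) else
      (Finset.range p).filter fun x => hv q.1 x p = hv q.2 x p).card <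
      ∑ q ∈ Λ ×ˢ Λ, 2 ^ n := by
    have hle : ∀ q ∈ Λ ×ˢ Λ, (if q.1 = q.2 then (∅ : Finset ℕ) else
        (Finset.range p).filter fun x => hv q.1 x p = hv q.2 x p).card < 2 ^ n := by
      intro q hq
      rw [Finset.mem_product] at hq
      split_ifs with h
      · simp
      · have := card_hv_eq_lt hp (T := q.1) (T' := q.2)
          (by rw [hlen _ hq.1, hlen _ hq.2]) h
        rwa [hlen _ hq.1] at this
    obtain ⟨T, hT⟩ := h0
    exact Finset.sum_lt_sum_of_nonempty ⟨(T, T), Finset.mem_product.2 ⟨hT, hT⟩⟩ hle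
  rw [Finset.sum_const, Finset.card_product, hΛ, smul_eq_mul] at h2
  omega

/-! ### Flipping coordinates -/

open Classical in
/-- Adding the vector `δ` to the coordinates with indices `ι i a`. -/
noncomputable def flp {I L A : Type} (ι : L → A → I) (δ : L → A → Bool) (r : I → Bool) (k : I) :
    Bool :=
  if h : ∃ q : L × A, ι q.1 q.2 = k then xor (r k) (δ h.choose.1 h.choose.2) else r k

lemma flp_mem {I L A : Type} {ι : L → A → I}
    (hι : ∀ i a i' a', ι i a = ι i' a' → i = i' ∧ a = a') (δ : L → A → Bool) (r : I → Bool)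
    (i : L) (a : A) : flp ι δ r (ι i a) = xor (r (ι i a)) (δ i a) := by
  have h : ∃ q : L × A, ι q.1 q.2 = ι i a := ⟨(i, a), rfl⟩
  unfold flp
  rw [dif_pos h]
  obtain ⟨h1, h2⟩ := hι _ _ _ _ h.choose_spec
  rw [h1, h2]

lemma flp_not {I L A : Type} {ι : L → A → I} (δ : L → A → Bool) (r : I → Bool) {k : I}
    (h : ∀ i a, ι i a ≠ k) : flp ι δ r k = r k := by
  unfold flp
  rw [dif_neg]
  rintro ⟨q, hq⟩
  exact h _ _ hq

lemma flp_flp {I L A : Type} {ι : L → A → I}
    (hι : ∀ i a i' a', ι i a = ι i' a' → i = i' ∧ a = a') (δ : L → A → Bool) :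
    Function.Involutive (flp ι δ) := by
  intro r
  funext k
  by_cases h : ∃ i a, ι i a = k
  · obtain ⟨i, a, rfl⟩ := h
    rw [flp_mem hι, flp_mem hι, Bool.xor_assoc, Bool.xor_self, Bool.xor_false]
  · push Not at h
    rw [flp_not δ _ h, flp_not δ _ h]

/-- The effect of flipping on the code. -/
lemma ebit_flp {M μ J P p K ℓ x : ℕ} (hpP : p ≤ P) (hμ : μ ≤ J) (hK : M * J * P * P ≤ K)
    (hx : x < p) (T : Fin ℓ → List Bool)
    (hT : ∀ i i', hv (T i) x p = hv (T i') x p → i = i')
    (ι : Fin ℓ → Fin M × Fin μ → Fin K)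
    (hι : ∀ i a, ((ι i a : Fin K) : ℕ) = idx J P a.1 a.2 x (hv (T i) x p))
    (δ : Fin ℓ → Fin M × Fin μ → Bool) (r : Fin K → Bool) (i : Fin ℓ) (a : Fin M × Fin μ) :
    ebit J P p (ext (flp ι δ r)) (T i) a.1 a.2 =
      xor (ebit J P p (ext r) (T i) a.1 a.2) (δ i a) := by
  have hp : 0 < p := by omega
  have hv' : ∀ (T : List Bool) (x : ℕ), hv T x p < P := fun T x =>
    lt_of_lt_of_le (hv_lt _ _ hp) hpP
  have hinj : ∀ i a i' a', ι i a = ι i' a' → i = i' ∧ a = a' := by
    intro i a i' a' h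
    have h1 := congrArg Fin.val h
    rw [hι, hι] at h1
    obtain ⟨h2, h3, -, h4⟩ := idx_inj (lt_of_lt_of_le a.2.2 hμ) (lt_of_lt_of_le hx hpP) (hv' _ _)
      (lt_of_lt_of_le a'.2.2 hμ) (lt_of_lt_of_le hx hpP) (hv' _ _) h1
    exact ⟨hT _ _ h4, Prod.ext (Fin.ext h2) (Fin.ext h3)⟩
  have hlt : ∀ x' < p, idx J P a.1 a.2 x' (hv (T i) x' p) < K := fun x' hx' =>
    lt_of_lt_of_le (idx_lt a.1.2 (lt_of_lt_of_le a.2.2 hμ) (lt_of_lt_of_le hx' hpP) (hv' _ _)) hK
  have hother : ∀ x' ∈ (Finset.range p).erase x,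
      (ext (flp ι δ r) (idx J P a.1 a.2 x' (hv (T i) x' p))).toNat =
        (ext r (idx J P a.1 a.2 x' (hv (T i) x' p))).toNat := by
    intro x' hx'
    rw [Finset.mem_erase, Finset.mem_range] at hx'
    rw [ext_of_lt _ (hlt x' hx'.2), ext_of_lt _ (hlt x' hx'.2), flp_not]
    intro i' a' h
    have h1 := congrArg Fin.val h
    rw [hι] at h1
    obtain ⟨-, -, h2, -⟩ := idx_inj (lt_of_lt_of_le a'.2.2 hμ) (lt_of_lt_of_le hx hpP) (hv' _ _)
      (lt_of_lt_of_le a.2.2 hμ) (lt_of_lt_of_le hx'.2 hpP) (hv' _ _) h1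
    exact hx'.1 h2.symm
  have hsame : ext (flp ι δ r) (idx J P a.1 a.2 x (hv (T i) x p)) =
      xor (ext r (idx J P a.1 a.2 x (hv (T i) x p))) (δ i a) := by
    rw [ext_of_lt _ (hlt x hx), ext_of_lt _ (hlt x hx)]
    have e : (⟨idx J P a.1 a.2 x (hv (T i) x p), hlt x hx⟩ : Fin K) = ι i a :=
      Fin.ext (hι i a).symm
    rw [e, flp_mem hinj]
  unfold ebit
  rw [← Finset.add_sum_erase _ _ (Finset.mem_range.2 hx),
    ← Finset.add_sum_erase _ _ (Finset.mem_range.2 hx), Finset.sum_congr rfl hother, hsame]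
  obtain ⟨s, hs⟩ : ∃ s, s = ∑ x' ∈ (Finset.range p).erase x,
    (ext r (idx J P a.1 a.2 x' (hv (T i) x' p))).toNat := ⟨_, rfl⟩
  rw [← hs]
  cases ext r (idx J P a.1 a.2 x (hv (T i) x p)) <;> cases δ i a <;>
    simp only [Bool.xor_false, Bool.xor_true, Bool.not_false, Bool.not_true, Bool.toNat_false,
      Bool.toNat_true, zero_add]
  · rcases Nat.mod_two_eq_zero_or_one s with h | h
    · have : (1 + s) % 2 = 1 := by omega
      simp [h, this]
    · have : (1 + s) % 2 = 0 := by omega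
      simp [h, this]
  · rcases Nat.mod_two_eq_zero_or_one s with h | h
    · have : (1 + s) % 2 = 1 := by omega
      simp [h, this]
    · have : (1 + s) % 2 = 0 := by omega
      simp [h, this]

end Pool.Agent.H64.NE
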